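import Mathlib

set_option autoImplicit false

/-!
# Rotor walks on the rooted `d`-ary tree and the uniform shift model: definitions
-/

namespace Pool.Agent.RotorShift

open MeasureTheory ProbabilityTheory

/-- The vertices of the rooted `d`-ary tree: the root is `[]`, the `i`-th child of `v` is `i :: v`
and the parent of `v` is `v.tail` (so the parent of the root is the root itself: the self-loop). -/
abbrev Vertex (d : ℕ) : Type := List (Fin d)

/-- The neighbour of `v` to which the rotor value `r` points: `0` is the parent and `i.succ` is
the `i`-th child. -/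
def nbr {d : ℕ} (v : Vertex d) (r : Fin (d + 1)) : Vertex d :=
  Fin.cases v.tail (fun i => i :: v) r

/-- The rotor walk of the configuration `α` (`α v n` is the rotor value used at the
`(n+1)`-st departure from `v`), started at the root. `(walk α t).1` is the position of the
particle after `t` steps and `(walk α t).2 v` is the number of departures from `v` during these
`t` steps. -/
def walk {d : ℕ} (α : Vertex d → ℕ → Fin (d + 1)) : ℕ → Vertex d × (Vertex d → ℕ)
  | 0 => ([], fun _ => 0)
  | t + 1 =>
    let v := (walk α t).1
    let u := (walk α t).2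
    (nbr v (α v (u v)), Function.update u v (u v + 1))

/-- The rotor walk visits the root infinitely many times. -/
def IsRecurrent {d : ℕ} (α : Vertex d → ℕ → Fin (d + 1)) : Prop :=
  {t : ℕ | (walk α t).1 = []}.Infinite

/-- The rotor walk is transient: it visits the root only finitely many times. -/
def IsTransient {d : ℕ} (α : Vertex d → ℕ → Fin (d + 1)) : Prop := ¬ IsRecurrent α

/-- Every rotor value occurs infinitely often in the rotor sequence `a`. -/
def Nondegenerate {d : ℕ} (a : ℕ → Fin (d + 1)) : Prop :=
  ∀ r : Fin (d + 1), {n : ℕ | a n = r}.Infinite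

/-- `a` is `L`-periodic. -/
def IsPeriodic {d : ℕ} (a : ℕ → Fin (d + 1)) (L : ℕ) : Prop := ∀ n, a (n + L) = a n

/-- `a` consists of blocks `0, i, j` with `i ≠ j` different from `0`: every occurrence of `0` is
followed by two distinct non-zero values and then again by `0`. -/
def BlockForm {d : ℕ} (a : ℕ → Fin (d + 1)) : Prop :=
  ∀ x, a x = 0 → a (x + 1) ≠ 0 ∧ a (x + 2) ≠ 0 ∧ a (x + 1) ≠ a (x + 2) ∧ a (x + 3) = 0

/-- The configuration with shifts `k`: the rotor sequence at `v` is the `k v`-fold shift of `a`. -/
def shiftConfig {d L : ℕ} (a : ℕ → Fin (d + 1)) (k : Vertex d → Fin L) :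
    Vertex d → ℕ → Fin (d + 1) :=
  fun v n => a (n + (k v : ℕ))

/-- The law of the shifts in the uniform shift model: independent, each uniform on
`{0, …, L - 1}`. -/
noncomputable def shiftLaw (d L : ℕ) : Measure (Vertex d → Fin L) :=
  Measure.infinitePi fun _ => uniformOn (Set.univ : Set (Fin L))

end Pool.Agent.RotorShift
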