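import Pool.Agent.RotorShift.Defs

set_option autoImplicit false

/-!
# Deterministic part: the walk returns infinitely often iff all excursion trees are finite
-/

namespace Pool.Agent.RotorShift

variable {d : ℕ}

/-- number of occurrences of `r` among the first `m` entries of `b` -/
def cnt (b : ℕ → Fin (d + 1)) (r : Fin (d + 1)) (m : ℕ) : ℕ := Nat.count (fun n => b n = r) m

/-- position just after the `m`-th zero -/
noncomputable def tz (b : ℕ → Fin (d + 1)) : ℕ → ℕ
  | 0 => 0
  | m + 1 => Nat.nth (fun n => b n = 0) m + 1

/-- number of `i.succ` before the `m`-th zero -/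
noncomputable def NN (b : ℕ → Fin (d + 1)) (i : Fin d) (m : ℕ) : ℕ := cnt b i.succ (tz b m)

/-- the number of entries into the vertices when the root has been entered `m` times -/
noncomputable def typ (α : Vertex d → ℕ → Fin (d + 1)) (m : ℕ) : Vertex d → ℕ
  | [] => m
  | i :: v => NN (α v) i (typ α m v)

lemma cnt_zero (b : ℕ → Fin (d + 1)) (r : Fin (d + 1)) : cnt b r 0 = 0 := by
  simp [cnt]

lemma cnt_succ_eq {b : ℕ → Fin (d + 1)} {r : Fin (d + 1)} {m : ℕ} (h : b m = r) :
    cnt b r (m + 1) = cnt b r m + 1 := by
  simp [cnt, Nat.count_succ, h]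

lemma cnt_succ_ne {b : ℕ → Fin (d + 1)} {r : Fin (d + 1)} {m : ℕ} (h : b m ≠ r) :
    cnt b r (m + 1) = cnt b r m := by
  simp [cnt, Nat.count_succ, h]

lemma cnt_mono (b : ℕ → Fin (d + 1)) (r : Fin (d + 1)) : Monotone (cnt b r) :=
  Nat.count_monotone _

lemma cnt_le (b : ℕ → Fin (d + 1)) (r : Fin (d + 1)) (m : ℕ) : cnt b r m ≤ m :=
  Nat.count_le _

lemma cnt_tz {b : ℕ → Fin (d + 1)} (hb : {n | b n = 0}.Infinite) (m : ℕ) :
    cnt b 0 (tz b m) = m := by
  cases m with
  | zero => simp [cnt, tz]
  | succ m =>
    simp only [cnt, tz]
    exact Nat.count_nth_succ_of_infinite hb m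

/-- fewer than `m+1` zeros seen means that we are before `tz (m+1)` -/
lemma lt_tz_of_cnt_lt {b : ℕ → Fin (d + 1)} (hb : {n | b n = 0}.Infinite) {m u : ℕ}
    (h : cnt b 0 u < m) : u < tz b m := by
  by_contra hcon
  push Not at hcon
  have := cnt_mono b 0 hcon
  rw [cnt_tz hb] at this
  omega

lemma tz_le_of_le_cnt {b : ℕ → Fin (d + 1)} {m u : ℕ}
    (h : m ≤ cnt b 0 u) : tz b m ≤ u := by
  cases m with
  | zero => simp [tz]
  | succ m =>
    simp only [tz]
    exact Nat.nth_lt_of_lt_count h

lemma tz_mono {b : ℕ → Fin (d + 1)} (hb : {n | b n = 0}.Infinite) : Monotone (tz b) := by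
  intro m n h
  apply tz_le_of_le_cnt
  rw [cnt_tz hb]
  exact h

lemma NN_mono {b : ℕ → Fin (d + 1)} (hb : {n | b n = 0}.Infinite) (i : Fin d) :
    Monotone (NN b i) := fun _ _ h => cnt_mono _ _ (tz_mono hb h)

lemma NN_zero (b : ℕ → Fin (d + 1)) (i : Fin d) : NN b i 0 = 0 := by
  simp [NN, tz, cnt]

/-! ### The walk -/

variable (α : Vertex d → ℕ → Fin (d + 1))

/-- position -/
def pos (t : ℕ) : Vertex d := (walk α t).1

/-- number of departures -/
def dep (t : ℕ) : Vertex d → ℕ := (walk α t).2

lemma pos_zero : pos α 0 = [] := rfl

lemma dep_zero (v : Vertex d) : dep α 0 v = 0 := rfl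

lemma pos_succ (t : ℕ) : pos α (t + 1) = nbr (pos α t) (α (pos α t) (dep α t (pos α t))) := rfl

lemma dep_succ (t : ℕ) : dep α (t + 1) =
    Function.update (dep α t) (pos α t) (dep α t (pos α t) + 1) := rfl

lemma dep_succ_self (t : ℕ) : dep α (t + 1) (pos α t) = dep α t (pos α t) + 1 := by
  rw [dep_succ, Function.update_self]

lemma dep_succ_ne {t : ℕ} {v : Vertex d} (h : v ≠ pos α t) : dep α (t + 1) v = dep α t v := by
  rw [dep_succ, Function.update_of_ne h]

lemma dep_mono_succ (t : ℕ) (v : Vertex d) : dep α t v ≤ dep α (t + 1) v := by
  by_cases h : v = pos α t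
  · subst h
    rw [dep_succ_self]
    omega
  · rw [dep_succ_ne α h]

lemma dep_mono (v : Vertex d) : Monotone fun t => dep α t v :=
  monotone_nat_of_le_succ fun t => dep_mono_succ α t v

lemma nbr_zero (v : Vertex d) : nbr v 0 = v.tail := rfl

lemma nbr_succ (v : Vertex d) (i : Fin d) : nbr v i.succ = i :: v := rfl

lemma not_cons_suffix (i : Fin d) (v : Vertex d) : ¬ (i :: v) <:+ v := by
  intro h
  have := h.length_le
  simp at this

open Classical in
/-- Conservation of crossings: the number of moves from `v` to its child `i :: v` equals the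
number of moves back, plus one if the particle currently is in the subtree of `i :: v`. -/
lemma crossing (t : ℕ) (i : Fin d) (v : Vertex d) :
    cnt (α v) i.succ (dep α t v) = cnt (α (i :: v)) 0 (dep α t (i :: v)) +
      (if (i :: v) <:+ pos α t then 1 else 0) := by
  induction t with
  | zero => simp [dep_zero, pos_zero, cnt_zero]
  | succ t ih =>
    set w := pos α t with hw
    -- the rotor used
    rcases Fin.eq_zero_or_eq_succ (α w (dep α t w)) with hr | ⟨j, hr⟩
    · -- move to the parent
      have hpos : pos α (t + 1) = w.tail := by rw [pos_succ, ← hw, hr, nbr_zero]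
      rw [hpos]
      by_cases hv : v = w
      · rw [hv] at ih ⊢
        have h1 : dep α (t + 1) w = dep α t w + 1 := by rw [hw]; exact dep_succ_self α t
        have h2 : dep α (t + 1) (i :: w) = dep α t (i :: w) :=
          dep_succ_ne α (by rw [← hw]; exact List.cons_ne_self _ _)
        have h3 : ¬ (i :: w) <:+ w := not_cons_suffix i w
        have h4 : ¬ (i :: w) <:+ w.tail := fun h => h3 (h.trans (List.tail_suffix w))
        rw [h1, h2, cnt_succ_ne (by rw [hr]; exact (Fin.succ_ne_zero i).symm), ih,
          if_neg h3, if_neg h4]
      · have h1 : dep α (t + 1) v = dep α t v := dep_succ_ne α (by rw [← hw]; exact hv)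
        rw [h1, ih]
        by_cases hiv : i :: v = w
        · have h2 : dep α (t + 1) (i :: v) = dep α t (i :: v) + 1 := by
            rw [hiv, hw]; exact dep_succ_self α t
          have h3 : w.tail = v := by rw [← hiv]; rfl
          rw [h2, h3, cnt_succ_eq (by rw [hiv]; exact hr), if_neg (not_cons_suffix i v),
            if_pos (by rw [hiv])]
        · have h2 : dep α (t + 1) (i :: v) = dep α t (i :: v) :=
            dep_succ_ne α (by rw [← hw]; exact hiv)
          rw [h2]
          have h5 : ((i :: v) <:+ w) ↔ ((i :: v) <:+ w.tail) := by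
            constructor
            · intro h
              cases hw' : w with
              | nil =>
                rw [hw'] at h
                exact h
              | cons j w' =>
                rw [hw'] at h
                rcases List.suffix_cons_iff.mp h with h' | h'
                · exact absurd (by rw [h', hw']) hiv
                · exact h'
            · intro h
              exact h.trans (List.tail_suffix w)
          simp only [h5]
    · -- move to the child `j :: w`
      have hpos : pos α (t + 1) = j :: w := by rw [pos_succ, ← hw, hr, nbr_succ]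
      rw [hpos]
      by_cases hv : v = w
      · rw [hv] at ih ⊢
        have h1 : dep α (t + 1) w = dep α t w + 1 := by rw [hw]; exact dep_succ_self α t
        have h2 : dep α (t + 1) (i :: w) = dep α t (i :: w) :=
          dep_succ_ne α (by rw [← hw]; exact List.cons_ne_self _ _)
        rw [if_neg (not_cons_suffix i w), add_zero] at ih
        rw [h1, h2]
        by_cases hij : i = j
        · subst hij
          rw [cnt_succ_eq hr, ih, if_pos (List.suffix_refl _)]
        · have h3 : ¬ (i :: w) <:+ (j :: w) := by
            intro h
            have := h.eq_of_length (by simp)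
            simp only [List.cons.injEq, and_true] at this
            exact hij this
          rw [cnt_succ_ne (by rw [hr]; intro h; exact hij (Fin.succ_injective _ h).symm), ih,
            if_neg h3, add_zero]
      · have h1 : dep α (t + 1) v = dep α t v := dep_succ_ne α (by rw [← hw]; exact hv)
        rw [h1, ih]
        by_cases hiv : i :: v = w
        · have h2 : dep α (t + 1) (i :: v) = dep α t (i :: v) + 1 := by
            rw [hiv, hw]; exact dep_succ_self α t
          rw [h2, cnt_succ_ne (by rw [hiv, hr]; exact Fin.succ_ne_zero j),
            if_pos (by rw [hiv]), if_pos (by rw [hiv]; exact List.suffix_cons j w)]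
        · have h2 : dep α (t + 1) (i :: v) = dep α t (i :: v) :=
            dep_succ_ne α (by rw [← hw]; exact hiv)
          rw [h2]
          have h5 : ((i :: v) <:+ w) ↔ ((i :: v) <:+ j :: w) := by
            constructor
            · intro h
              exact h.trans (List.suffix_cons j w)
            · intro h
              rcases List.suffix_cons_iff.mp h with h' | h'
              · simp only [List.cons.injEq] at h'
                exact absurd h'.2 hv
              · exact h'
          simp only [h5]

/-- at a time when the particle is at the root, crossings balance exactly -/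
lemma crossing_root {t : ℕ} (ht : pos α t = []) (i : Fin d) (v : Vertex d) :
    cnt (α v) i.succ (dep α t v) = cnt (α (i :: v)) 0 (dep α t (i :: v)) := by
  classical
  have := crossing α t i v
  rw [ht, if_neg (by simp)] at this
  simpa using this

lemma dep_support_finite (t : ℕ) : {v | dep α t v ≠ 0}.Finite := by
  induction t with
  | zero => simp [dep_zero]
  | succ t ih =>
    refine (ih.insert (pos α t)).subset ?_
    intro v hv
    by_cases h : v = pos α t
    · exact Or.inl h
    · right
      simpa [dep_succ_ne α h] using hv

lemma sum_dep (F : Finset (Vertex d)) (hF : ∀ t v, dep α t v ≠ 0 → v ∈ F) (t : ℕ) :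
    ∑ v ∈ F, dep α t v = t := by
  induction t with
  | zero => simp [dep_zero]
  | succ t ih =>
    have hmem : pos α t ∈ F := hF (t + 1) _ (by rw [dep_succ_self]; omega)
    rw [← Finset.add_sum_erase _ _ hmem] at ih ⊢
    rw [dep_succ_self]
    have : ∑ v ∈ F.erase (pos α t), dep α (t + 1) v = ∑ v ∈ F.erase (pos α t), dep α t v := by
      refine Finset.sum_congr rfl ?_
      intro v hv
      exact dep_succ_ne α (Finset.ne_of_mem_erase hv)
    rw [this]
    omega

/-- infinitely many visits to the root: the root is left arbitrarily often -/
lemma exists_large_root (hrec : IsRecurrent α) (B : ℕ) :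
    ∃ t, pos α t = [] ∧ B ≤ dep α t [] := by
  induction B with
  | zero => exact ⟨0, rfl, Nat.zero_le _⟩
  | succ B ih =>
    obtain ⟨t, ht, hB⟩ := ih
    obtain ⟨s, hs, hts⟩ := hrec.exists_gt t
    refine ⟨s, hs, ?_⟩
    have h1 : dep α (t + 1) [] ≤ dep α s [] := dep_mono α [] hts
    have h2 : dep α (t + 1) [] = dep α t [] + 1 := by
      have := dep_succ_self α t
      rwa [ht] at this
    omega

/-- **Transience criterion.** If for some number `m` of entries the tree of visited vertices
is infinite, the walk is transient. -/
theorem transient_of_infinite (hα : ∀ v, {n | α v n = 0}.Infinite) (m : ℕ)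
    (hinf : {v | 1 ≤ typ α m v}.Infinite) : IsTransient α := by
  intro hrec
  obtain ⟨t, ht, hB⟩ := exists_large_root α hrec (tz (α []) m)
  have key : ∀ v, typ α m v ≤ cnt (α v) 0 (dep α t v) := by
    intro v
    induction v with
    | nil =>
      simp only [typ]
      calc m = cnt (α []) 0 (tz (α []) m) := (cnt_tz (hα []) m).symm
        _ ≤ _ := cnt_mono _ _ hB
    | cons i v ih =>
      simp only [typ, NN]
      rw [← crossing_root α ht i v]
      exact cnt_mono _ _ (tz_le_of_le_cnt ih)
  refine hinf ((dep_support_finite α t).subset ?_)
  intro v hv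
  have h1 := key v
  have h2 := cnt_le (α v) 0 (dep α t v)
  simp only [Set.mem_ofPred_eq] at hv ⊢
  omega

/-- **Recurrence criterion.** If for every number `m` of entries the tree of visited vertices is
finite, the walk is recurrent. -/
theorem recurrent_of_finite (hα : ∀ v, {n | α v n = 0}.Infinite)
    (hfin : ∀ m, {v | 1 ≤ typ α m v}.Finite) : IsRecurrent α := by
  classical
  by_contra hcon
  have hcon' : {t : ℕ | pos α t = []}.Finite := Set.not_infinite.mp hcon
  -- departures from the root are bounded
  obtain ⟨B, hB⟩ : ∃ B, ∀ t, dep α t [] ≤ B := by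
    obtain ⟨M, hM⟩ := hcon'.bddAbove
    refine ⟨dep α (M + 1) [], ?_⟩
    intro t
    by_cases htM : t ≤ M + 1
    · exact dep_mono α [] htM
    · push Not at htM
      have : ∀ s, dep α (M + 1 + s) [] = dep α (M + 1) [] := by
        intro s
        induction s with
        | zero => rfl
        | succ s ih =>
          rw [← ih]
          refine dep_succ_ne α ?_
          intro h
          have := hM (show pos α (M + 1 + s) = [] from h.symm)
          omega
      obtain ⟨s, rfl⟩ := Nat.exists_eq_add_of_lt htM
      rw [show M + 1 + s + 1 = M + 1 + (s + 1) by ring]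
      exact (this (s + 1)).le
  -- bound for all vertices
  have key : ∀ t v, dep α t v ≤ tz (α v) (typ α (B + 1) v) := by
    intro t
    induction t with
    | zero =>
      intro v
      rw [dep_zero]
      exact Nat.zero_le _
    | succ t ih =>
      intro v
      by_cases hv : v = pos α t
      · subst hv
        rw [dep_succ_self]
        rw [Nat.succ_le_iff]
        apply lt_tz_of_cnt_lt (hα _)
        -- number of returns to the parent
        cases hw : pos α t with
        | nil =>
          simp only [typ]
          have h1 := cnt_le (α []) 0 (dep α t [])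
          have h2 := hB t
          omega
        | cons i v =>
          have h1 := crossing α t i v
          rw [if_pos (by rw [hw])] at h1
          have h2 : cnt (α v) i.succ (dep α t v) ≤ cnt (α v) i.succ (tz (α v) (typ α (B + 1) v)) :=
            cnt_mono _ _ (ih v)
          simp only [typ, NN]
          omega
      · rw [dep_succ_ne α hv]
        exact ih v
  -- contradiction by counting steps
  let F : Finset (Vertex d) := (hfin (B + 1)).toFinset
  have hF : ∀ t v, dep α t v ≠ 0 → v ∈ F := by
    intro t v hv
    simp only [F, Set.Finite.mem_toFinset, Set.mem_ofPred_eq]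
    by_contra hlt
    have h0 : typ α (B + 1) v = 0 := by omega
    have := key t v
    rw [h0] at this
    simp only [tz] at this
    omega
  have h1 := sum_dep α F hF (∑ v ∈ F, tz (α v) (typ α (B + 1) v) + 1)
  have h2 : ∑ v ∈ F, dep α (∑ v ∈ F, tz (α v) (typ α (B + 1) v) + 1) v ≤
      ∑ v ∈ F, tz (α v) (typ α (B + 1) v) := Finset.sum_le_sum fun v _ => key _ v
  omega

end Pool.Agent.RotorShift
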