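import Pool.Agent.RotorShift.Prob

set_option autoImplicit false

/-!
# Extinction probabilities of the tree of visited vertices
-/

namespace Pool.Agent.RotorShift

open MeasureTheory ProbabilityTheory Filter Topology

variable {d L : ℕ}

/-- number of visits to the `i`-th child before the `m`-th return to the parent,
when the rotor sequence is `a` shifted by `x` -/
noncomputable def NS (a : ℕ → Fin (d + 1)) (x : ℕ) (i : Fin d) (m : ℕ) : ℕ :=
  NN (fun n => a (n + x)) i m

/-- no vertex at distance `n` from the root is visited when the root is entered `m` times -/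
def Dead (a : ℕ → Fin (d + 1)) (n m : ℕ) : Set (Vertex d → Fin L) :=
  {k | ∀ v : Vertex d, v.length = n → typ (shiftConfig a k) m v = 0}

lemma typ_append (a : ℕ → Fin (d + 1)) (k : Vertex d → Fin L) (m : ℕ) (i : Fin d)
    (v : Vertex d) :
    typ (shiftConfig a k) m (v ++ [i]) =
      typ (shiftConfig a (sub i k)) (NS a (k [] : ℕ) i m) v := by
  induction v with
  | nil => rfl
  | cons j v ih =>
    simp only [List.cons_append, typ]
    rw [ih]
    rfl

lemma dead_zero (a : ℕ → Fin (d + 1)) (m : ℕ) :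
    (Dead a 0 m : Set (Vertex d → Fin L)) = if m = 0 then Set.univ else ∅ := by
  ext k
  split_ifs with h <;> simp [Dead, typ, h]

lemma mem_dead_succ (a : ℕ → Fin (d + 1)) (n m : ℕ) (k : Vertex d → Fin L) :
    k ∈ Dead a (n + 1) m ↔ ∀ i, sub i k ∈ Dead a n (NS a (k [] : ℕ) i m) := by
  constructor
  · intro h i v hv
    rw [← typ_append]
    apply h
    simp [hv]
  · intro h v hv
    rcases List.eq_nil_or_concat v with rfl | ⟨w, i, rfl⟩
    · simp at hv
    · rw [List.concat_eq_append] at hv ⊢
      rw [typ_append]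
      apply h i
      simpa using hv

lemma dead_succ (a : ℕ → Fin (d + 1)) (n m : ℕ) :
    (Dead a (n + 1) m : Set (Vertex d → Fin L)) =
      ⋃ x : Fin L, {k | k [] = x ∧ ∀ i, sub i k ∈ Dead a n (NS a (x : ℕ) i m)} := by
  ext k
  rw [mem_dead_succ]
  simp only [Set.mem_iUnion, Set.mem_ofPred_eq]
  constructor
  · intro h
    exact ⟨k [], rfl, h⟩
  · rintro ⟨x, rfl, h⟩
    exact h

lemma measurable_sub (i : Fin d) : Measurable (sub i : (Vertex d → Fin L) → _) := by
  rw [measurable_pi_iff]
  intro v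
  exact measurable_pi_apply _

lemma measurableSet_piece (x : Fin L) (B : Fin d → Set (Vertex d → Fin L))
    (hB : ∀ i, MeasurableSet (B i)) :
    MeasurableSet {k : Vertex d → Fin L | k [] = x ∧ ∀ i, sub i k ∈ B i} := by
  have hset : {k : Vertex d → Fin L | k [] = x ∧ ∀ i, sub i k ∈ B i} =
      (fun k : Vertex d → Fin L => k []) ⁻¹' {x} ∩ ⋂ i, sub i ⁻¹' (B i) := by
    ext k
    simp
  rw [hset]
  have h1 : Measurable (fun k : Vertex d → Fin L => k []) := measurable_pi_apply _
  exact (h1 (measurableSet_singleton x)).inter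
    (MeasurableSet.iInter fun i => measurable_sub i (hB i))

lemma measurableSet_dead (a : ℕ → Fin (d + 1)) (n : ℕ) :
    ∀ m, MeasurableSet (Dead a n m : Set (Vertex d → Fin L)) := by
  induction n with
  | zero =>
    intro m
    rw [dead_zero]
    split_ifs
    · exact MeasurableSet.univ
    · exact MeasurableSet.empty
  | succ n ih =>
    intro m
    rw [dead_succ]
    exact MeasurableSet.iUnion fun x => measurableSet_piece x _ fun i => ih _

/-- the probability of `Dead a n m` -/
noncomputable def qr (L : ℕ) (a : ℕ → Fin (d + 1)) (n m : ℕ) : ℝ :=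
  (shiftLaw d L (Dead a n m)).toReal

lemma qr_nonneg (a : ℕ → Fin (d + 1)) (n m : ℕ) : 0 ≤ qr L a n m := ENNReal.toReal_nonneg

lemma qr_le_one [NeZero L] (a : ℕ → Fin (d + 1)) (n m : ℕ) : qr L a n m ≤ 1 := by
  unfold qr
  have h : shiftLaw d L (Dead a n m) ≤ 1 := prob_le_one
  calc (shiftLaw d L (Dead a n m)).toReal ≤ (1 : ENNReal).toReal :=
        ENNReal.toReal_mono ENNReal.one_ne_top h
    _ = 1 := by simp

lemma qr_zero [NeZero L] (a : ℕ → Fin (d + 1)) (m : ℕ) :
    qr L a 0 m = if m = 0 then 1 else 0 := by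
  unfold qr
  rw [dead_zero]
  split_ifs <;> simp

/-- the recursion for the extinction probabilities -/
lemma qr_succ [NeZero L] (a : ℕ → Fin (d + 1)) (n m : ℕ) :
    qr L a (n + 1) m = (L : ℝ)⁻¹ * ∑ x : Fin L, ∏ i, qr L a n (NS a (x : ℕ) i m) := by
  unfold qr
  have h1 : shiftLaw d L (Dead a (n + 1) m) =
      ∑ x : Fin L, (L : ENNReal)⁻¹ * ∏ i, shiftLaw d L (Dead a n (NS a (x : ℕ) i m)) := by
    rw [dead_succ, measure_iUnion]
    · rw [tsum_fintype]
      exact Finset.sum_congr rfl fun x _ => law_split x _ fun i => measurableSet_dead a n _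
    · intro x y hxy
      rw [Function.onFun, Set.disjoint_left]
      rintro k ⟨hk, _⟩ ⟨hk', _⟩
      exact hxy (hk ▸ hk')
    · intro x
      exact measurableSet_piece x _ fun i => measurableSet_dead a n _
  rw [h1, ENNReal.toReal_sum, Finset.mul_sum]
  · refine Finset.sum_congr rfl ?_
    intro x _
    rw [ENNReal.toReal_mul, ENNReal.toReal_prod, ENNReal.toReal_inv]
    simp
  · intro x _
    apply ENNReal.mul_ne_top
    · simp [NeZero.ne L]
    · exact ENNReal.prod_ne_top fun i _ => measure_ne_top _ _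

lemma typ_pos_of_cons {α : Vertex d → ℕ → Fin (d + 1)} {m : ℕ} {i : Fin d} {v : Vertex d}
    (h : 1 ≤ typ α m (i :: v)) : 1 ≤ typ α m v := by
  by_contra hcon
  have h0 : typ α m v = 0 := by omega
  simp only [typ, h0, NN_zero] at h
  omega

lemma typ_pos_of_append {α : Vertex d → ℕ → Fin (d + 1)} {m : ℕ} (w v : Vertex d)
    (h : 1 ≤ typ α m (w ++ v)) : 1 ≤ typ α m v := by
  induction w with
  | nil => simpa using h
  | cons i w ih => exact ih (typ_pos_of_cons h)

lemma dead_mono (a : ℕ → Fin (d + 1)) (m : ℕ) :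
    Monotone fun n => (Dead a n m : Set (Vertex d → Fin L)) := by
  refine monotone_nat_of_le_succ ?_
  intro n k hk v hv
  by_contra hne
  cases v with
  | nil => simp at hv
  | cons i v =>
    have := typ_pos_of_cons (α := shiftConfig a k) (m := m) (i := i) (v := v) (by omega)
    have h2 := hk v (by simpa using hv)
    omega

lemma finite_of_dead {a : ℕ → Fin (d + 1)} {m n : ℕ} {k : Vertex d → Fin L}
    (h : k ∈ Dead a n m) : {v | 1 ≤ typ (shiftConfig a k) m v}.Finite := by
  refine (List.finite_length_lt (Fin d) n).subset ?_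
  intro v hv
  simp only [Set.mem_ofPred_eq] at hv ⊢
  by_contra hcon
  push Not at hcon
  have h1 := dead_mono a m hcon h v rfl
  omega

lemma infinite_of_not_dead {a : ℕ → Fin (d + 1)} {m : ℕ} {k : Vertex d → Fin L}
    (h : ∀ n, k ∉ Dead a n m) : {v | 1 ≤ typ (shiftConfig a k) m v}.Infinite := by
  intro hfin
  obtain ⟨M, hM⟩ := (hfin.image List.length).bddAbove
  have := h (M + 1)
  simp only [Dead, Set.mem_ofPred_eq, not_forall] at this
  obtain ⟨v, hv, hne⟩ := this
  have : v.length ≤ M := hM ⟨v, by simp only [Set.mem_ofPred_eq]; omega, rfl⟩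
  omega

/-- all shifts of a sequence with infinitely many zeros have infinitely many zeros -/
lemma zeros_shift {a : ℕ → Fin (d + 1)} (ha : {n | a n = 0}.Infinite) (x : ℕ) :
    {n | a (n + x) = 0}.Infinite := by
  rw [Set.infinite_iff_exists_gt] at ha ⊢
  intro N
  obtain ⟨m, hm, hmN⟩ := ha (N + x)
  refine ⟨m - x, ?_, by omega⟩
  simp only [Set.mem_ofPred_eq] at hm ⊢
  rwa [Nat.sub_add_cancel (by omega)]

/-- **Recurrence criterion.** -/
theorem ae_recurrent [NeZero L] {a : ℕ → Fin (d + 1)} (ha : {n | a n = 0}.Infinite)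
    (h : ∀ m, Tendsto (fun n => qr L a n m) atTop (𝓝 1)) :
    ∀ᵐ k ∂(shiftLaw d L), IsRecurrent (shiftConfig a k) := by
  have key : ∀ m, ∀ᵐ k ∂(shiftLaw d L), ∃ n, k ∈ Dead a n m := by
    intro m
    have h1 : shiftLaw d L (⋃ n, Dead a n m) = 1 := by
      apply le_antisymm prob_le_one
      have h2 : ∀ n, ENNReal.ofReal (qr L a n m) ≤ shiftLaw d L (⋃ n, Dead a n m) := by
        intro n
        unfold qr
        rw [ENNReal.ofReal_toReal (measure_ne_top _ _)]
        exact measure_mono (Set.subset_iUnion (fun n => (Dead a n m : Set (Vertex d → Fin L))) n)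
      have h3 : Tendsto (fun n => ENNReal.ofReal (qr L a n m)) atTop (𝓝 (ENNReal.ofReal 1)) :=
        ENNReal.tendsto_ofReal (h m)
      rw [ENNReal.ofReal_one] at h3
      exact le_of_tendsto' h3 h2
    have h4 : MeasurableSet (⋃ n, (Dead a n m : Set (Vertex d → Fin L))) :=
      MeasurableSet.iUnion fun n => measurableSet_dead a n m
    have h5 := (prob_compl_eq_zero_iff h4).mpr h1
    rw [ae_iff]
    convert! h5 using 2
    ext k
    simp
  rw [← ae_all_iff] at key
  filter_upwards [key] with k hk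
  refine recurrent_of_finite _ (fun v => zeros_shift ha _) ?_
  intro m
  obtain ⟨n, hn⟩ := hk m
  exact finite_of_dead hn

/-- **Transience criterion.** -/
theorem ae_transient [NeZero L] {a : ℕ → Fin (d + 1)} (ha : {n | a n = 0}.Infinite)
    (h : ∀ ε : ℝ, 0 < ε → ∃ m, ∀ n, qr L a n m ≤ ε) :
    ∀ᵐ k ∂(shiftLaw d L), IsTransient (shiftConfig a k) := by
  have key : ∀ᵐ k ∂(shiftLaw d L), ∃ m, ∀ n, k ∉ Dead a n m := by
    rw [ae_iff]
    have h1 : ∀ ε : ℝ, 0 < ε → shiftLaw d L {k | ¬ ∃ m, ∀ n, k ∉ Dead a n m}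
        ≤ ENNReal.ofReal ε := by
      intro ε hε
      obtain ⟨m, hm⟩ := h ε hε
      calc shiftLaw d L {k | ¬ ∃ m, ∀ n, k ∉ Dead a n m} ≤ shiftLaw d L (⋃ n, Dead a n m) := by
            apply measure_mono
            intro k hk
            simp only [Set.mem_ofPred_eq, not_exists, not_forall, not_not] at hk
            obtain ⟨n, hn⟩ := hk m
            exact Set.mem_iUnion.mpr ⟨n, hn⟩
        _ ≤ ENNReal.ofReal ε := by
            have h2 : Tendsto (fun n => shiftLaw d L (Dead a n m)) atTop
                (𝓝 (shiftLaw d L (⋃ n, Dead a n m))) :=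
              tendsto_measure_iUnion_atTop (dead_mono a m)
            refine le_of_tendsto' h2 ?_
            intro n
            rw [← ENNReal.ofReal_toReal (measure_ne_top (shiftLaw d L) (Dead a n m))]
            exact ENNReal.ofReal_le_ofReal (hm n)
    refine le_antisymm ?_ zero_le
    refine ENNReal.le_of_forall_pos_le_add ?_
    intro ε hε _
    have := h1 ε (by exact_mod_cast hε)
    simpa using this
  filter_upwards [key] with k hk
  obtain ⟨m, hm⟩ := hk
  exact transient_of_infinite _ (fun v => zeros_shift ha _) m (infinite_of_not_dead hm)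

end Pool.Agent.RotorShift
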