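import Pool.Agent.RotorShift.Surv

set_option autoImplicit false

/-!
# Mean number of visits to the children: exact formula and lower bound
-/

namespace Pool.Agent.RotorShift

open Finset

/-! ### Window sums of a periodic sequence -/

lemma sum_range_shift (f : ℕ → ℝ) (n : ℕ) (hf : ∀ j, f (j + n) = f j) (c : ℕ) :
    ∑ j ∈ range n, f (j + c) = ∑ j ∈ range n, f j := by
  induction c with
  | zero => simp
  | succ c ih =>
    have h1 : ∑ j ∈ range (n + 1), f (j + c) = ∑ j ∈ range n, f (j + (c + 1)) + f c := by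
      rw [sum_range_succ']
      simp only [zero_add]
      congr 1
      refine sum_congr rfl fun j _ => ?_
      rw [show j + 1 + c = j + (c + 1) by ring]
    have h2 : ∑ j ∈ range (n + 1), f (j + c) = ∑ j ∈ range n, f (j + c) + f c := by
      rw [sum_range_succ, show n + c = c + n by ring, hf]
    linarith

/-- window sum -/
noncomputable def WW (g : ℕ → ℝ) (j k : ℕ) : ℝ := ∑ u ∈ range k, g (j + u)

lemma WW_succ (g : ℕ → ℝ) (j k : ℕ) : WW g j (k + 1) = g j + WW g (j + 1) k := by
  unfold WW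
  rw [sum_range_succ', add_comm]
  simp only [add_zero]
  congr 1
  refine sum_congr rfl fun u _ => ?_
  rw [show j + (u + 1) = j + 1 + u by ring]

lemma WW_periodic {g : ℕ → ℝ} {n : ℕ} (hg : ∀ j, g (j + n) = g j) (j k : ℕ) :
    WW g (j + n) k = WW g j k := by
  unfold WW
  refine sum_congr rfl fun u _ => ?_
  rw [show j + n + u = j + u + n by ring, hg]

lemma sum_WW {g : ℕ → ℝ} {n : ℕ} (hg : ∀ j, g (j + n) = g j) (c k : ℕ) :
    ∑ j ∈ range n, WW g (j + c) k = k * ∑ j ∈ range n, g j := by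
  unfold WW
  rw [sum_comm]
  have : ∀ u ∈ range k, ∑ j ∈ range n, g (j + c + u) = ∑ j ∈ range n, g j := by
    intro u _
    rw [← sum_range_shift g n hg (c + u)]
    refine sum_congr rfl fun j _ => ?_
    rw [add_assoc]
  rw [sum_congr rfl this]
  simp

/-- the Fejer kernel inequality -/
lemma fejer {g : ℕ → ℝ} {n : ℕ} (hg : ∀ j, g (j + n) = g j) (hg0 : ∀ j, 0 ≤ g j) (k : ℕ) :
    (k + 1) * (∑ j ∈ range n, g j) ^ 2 ≤
      n * (∑ j ∈ range n, g j ^ 2 + 2 * ∑ j ∈ range n, g j * WW g (j + 1) k) := by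
  set R := ∑ j ∈ range n, g j ^ 2 with hR
  have hWmono : ∀ j k, WW g j k ≤ WW g j (k + 1) := by
    intro j k
    unfold WW
    rw [sum_range_succ]
    linarith [hg0 (j + k)]
  have hV : ∀ k, ∑ j ∈ range n, (WW g j (k + 1)) ^ 2 ≤
      (k + 1) * (R + 2 * ∑ j ∈ range n, g j * WW g (j + 1) k) := by
    intro k
    induction k with
    | zero =>
      have : ∀ j ∈ range n, (WW g j (0 + 1)) ^ 2 = g j ^ 2 := by
        intro j _
        simp [WW]
      rw [sum_congr rfl this, ← hR]
      simp [WW]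
    | succ k ih =>
      have h1 : ∑ j ∈ range n, (WW g j (k + 1 + 1)) ^ 2 =
          R + 2 * (∑ j ∈ range n, g j * WW g (j + 1) (k + 1)) +
            ∑ j ∈ range n, (WW g j (k + 1)) ^ 2 := by
        have h2 : ∑ j ∈ range n, (WW g (j + 1) (k + 1)) ^ 2 =
            ∑ j ∈ range n, (WW g j (k + 1)) ^ 2 :=
          sum_range_shift (fun j => (WW g j (k + 1)) ^ 2) n
            (fun j => by rw [WW_periodic hg]) 1
        rw [← h2, hR, mul_sum, ← sum_add_distrib, ← sum_add_distrib]
        refine sum_congr rfl fun j _ => ?_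
        rw [WW_succ g j (k + 1)]
        ring
      have h3 : ∑ j ∈ range n, g j * WW g (j + 1) k ≤ ∑ j ∈ range n, g j * WW g (j + 1) (k + 1) :=
        sum_le_sum fun j _ => mul_le_mul_of_nonneg_left (hWmono _ _) (hg0 j)
      rw [h1]
      push_cast
      have h4 : ((k : ℝ) + 1) * (R + 2 * ∑ j ∈ range n, g j * WW g (j + 1) k) ≤
          ((k : ℝ) + 1) * (R + 2 * ∑ j ∈ range n, g j * WW g (j + 1) (k + 1)) :=
        mul_le_mul_of_nonneg_left (by linarith) (by positivity)
      linarith
  have hC : (∑ j ∈ range n, WW g j (k + 1)) ^ 2 ≤ n * ∑ j ∈ range n, (WW g j (k + 1)) ^ 2 := by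
    have := sq_sum_le_card_mul_sum_sq (s := range n) (f := fun j => WW g j (k + 1))
    simpa using this
  have hS : ∑ j ∈ range n, WW g j (k + 1) = (k + 1) * ∑ j ∈ range n, g j := by
    have := sum_WW hg 0 (k + 1)
    simpa using this
  rw [hS] at hC
  have h5 : (n : ℝ) * ∑ j ∈ range n, (WW g j (k + 1)) ^ 2 ≤
      n * ((k + 1) * (R + 2 * ∑ j ∈ range n, g j * WW g (j + 1) k)) :=
    mul_le_mul_of_nonneg_left (hV k) (by positivity)
  have h6 : ((k : ℝ) + 1) * ((k + 1) * (∑ j ∈ range n, g j) ^ 2) ≤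
      (k + 1) * (n * (R + 2 * ∑ j ∈ range n, g j * WW g (j + 1) k)) := by
    nlinarith
  exact le_of_mul_le_mul_left h6 (by positivity)

/-! ### Zeros of a periodic rotor sequence -/

variable {d L : ℕ}

lemma sum_cnt (b : ℕ → Fin (d + 1)) (u : ℕ) : ∑ r, cnt b r u = u := by
  induction u with
  | zero => simp [cnt_zero]
  | succ u ih =>
    have : ∀ r, cnt b r (u + 1) = cnt b r u + if b u = r then 1 else 0 := by
      intro r
      by_cases h : b u = r
      · rw [cnt_succ_eq h, if_pos h]
      · rw [cnt_succ_ne h, if_neg h, add_zero]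
    rw [sum_congr rfl fun r _ => this r, sum_add_distrib, ih]
    simp

lemma sum_NN {b : ℕ → Fin (d + 1)} (hb : {n | b n = 0}.Infinite) (m : ℕ) :
    (∑ i, NN b i m) + m = tz b m := by
  have h1 := sum_cnt b (tz b m)
  rw [Fin.sum_univ_succ, cnt_tz hb] at h1
  unfold NN
  omega

/-- position of the `j`-th zero (counted from `0`) -/
noncomputable def zpos (a : ℕ → Fin (d + 1)) (j : ℕ) : ℕ := Nat.nth (fun n => a n = 0) j

section

variable {a : ℕ → Fin (d + 1)} (hz : {n | a n = 0}.Infinite)

include hz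

lemma zpos_mem (j : ℕ) : a (zpos a j) = 0 := Nat.nth_mem_of_infinite hz j

lemma cnt_zpos (j : ℕ) : cnt a 0 (zpos a j) = j := Nat.count_nth_of_infinite hz j

omit hz in
lemma zpos_cnt {x : ℕ} (hx : a x = 0) : zpos a (cnt a 0 x) = x :=
  Nat.nth_count (p := fun n => a n = 0) hx

lemma zpos_strictMono : StrictMono (zpos a) := Nat.nth_strictMono hz

lemma tz_shift (x m : ℕ) :
    tz (fun n => a (n + x)) (m + 1) + x = zpos a (cnt a 0 x + m) + 1 := by
  have hb := zeros_shift hz x
  have h1 : zpos (fun n => a (n + x)) m + x = zpos a (cnt a 0 x + m) := by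
    have h2 : a (zpos (fun n => a (n + x)) m + x) = 0 := zpos_mem hb m
    have h3 := zpos_cnt h2
    rw [add_comm (zpos (fun n => a (n + x)) m) x, cnt_add, cnt_zpos hb m] at h3
    rw [h3, add_comm]
  rw [← h1]
  unfold tz zpos
  ring

lemma zpos_period (ha : IsPeriodic a L) (j : ℕ) :
    zpos a (j + num L a 0) = zpos a j + L := by
  have h1 : a (zpos a j + L) = 0 := by rw [ha, zpos_mem hz]
  have h2 := zpos_cnt h1
  rw [← h2]
  congr 1
  rw [add_comm (zpos a j) L, cnt_add]
  have h3 : (fun n => a (n + L)) = a := funext ha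
  rw [h3, cnt_zpos hz]
  unfold num
  ring

/-- the gaps between consecutive zeros -/
noncomputable def gap (a : ℕ → Fin (d + 1)) (j : ℕ) : ℝ :=
  (zpos a (j + 1) : ℝ) - zpos a j - 1

lemma gap_nonneg (j : ℕ) : 0 ≤ gap a j := by
  have h := zpos_strictMono hz (Nat.lt_succ_self j)
  have h' : (zpos a j : ℝ) + 1 ≤ zpos a (j + 1) := by exact_mod_cast h
  unfold gap
  linarith

lemma gap_periodic (ha : IsPeriodic a L) (j : ℕ) : gap a (j + num L a 0) = gap a j := by
  unfold gap
  rw [show j + num L a 0 + 1 = j + 1 + num L a 0 by ring, zpos_period hz ha,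
    zpos_period hz ha]
  push_cast
  ring

omit hz in
lemma WW_gap (j k : ℕ) : WW (gap a) j k = (zpos a (j + k) : ℝ) - zpos a j - k := by
  induction k with
  | zero => simp [WW]
  | succ k ih =>
    have : WW (gap a) j (k + 1) = WW (gap a) j k + gap a (j + k) := by
      unfold WW
      rw [sum_range_succ]
    rw [this, ih]
    unfold gap
    push_cast
    rw [← add_assoc]
    ring

lemma sum_gap (ha : IsPeriodic a L) :
    ∑ j ∈ range (num L a 0), gap a j = (L : ℝ) - num L a 0 := by
  have h1 : ∑ j ∈ range (num L a 0), gap a j = WW (gap a) 0 (num L a 0) := by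
    unfold WW
    simp
  rw [h1, WW_gap]
  have h2 := zpos_period hz ha 0
  rw [h2]
  push_cast
  ring

lemma cnt_between {x j : ℕ} (h1 : zpos a j + 1 ≤ x) (h2 : x ≤ zpos a (j + 1)) :
    cnt a 0 x = j + 1 := by
  apply le_antisymm
  · rw [← cnt_zpos hz (j + 1)]
    exact cnt_mono _ _ h2
  · calc j + 1 = cnt a 0 (zpos a j + 1) := by
          rw [cnt_succ_eq (zpos_mem hz j), cnt_zpos hz]
      _ ≤ cnt a 0 x := cnt_mono _ _ h1

/-- total number of visits to children before the `m+1`-st zero -/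
noncomputable def tot (a : ℕ → Fin (d + 1)) (m x : ℕ) : ℝ := ∑ i, (NS a x i m : ℝ)

lemma tot_eq (m x : ℕ) : tot a m x = (tz (fun n => a (n + x)) m : ℝ) - m := by
  have h := sum_NN (zeros_shift hz x) m
  unfold tot NS
  rw [← h]
  push_cast
  ring

omit hz in
lemma sum_Ico_lin (c : ℝ) {A B : ℕ} (hAB : A ≤ B) :
    ∑ x ∈ Ico (A + 1) (B + 1), (c - (x : ℝ)) =
      ((B : ℝ) - A) * c - ((B : ℝ) * (B + 1) - A * (A + 1)) / 2 := by
  induction B, hAB using Nat.le_induction with
  | base => simp
  | succ B hAB ih =>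
    rw [sum_Ico_succ_top (by omega), ih]
    push_cast
    ring

lemma sum_block (m j : ℕ) :
    ∑ x ∈ Ico (zpos a j + 1) (zpos a (j + 1) + 1), tot a (m + 1) x =
      (gap a j + 1) * (WW (gap a) (j + 1) m + gap a j / 2) := by
  have h1 : ∀ x ∈ Ico (zpos a j + 1) (zpos a (j + 1) + 1), tot a (m + 1) x =
      ((zpos a (j + 1 + m) : ℝ) - m) - x := by
    intro x hx
    rw [mem_Ico] at hx
    have h2 := tz_shift hz x m
    rw [cnt_between hz hx.1 (by omega)] at h2
    have h3 : (tz (fun n => a (n + x)) (m + 1) : ℝ) + x = zpos a (j + 1 + m) + 1 := by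
      exact_mod_cast h2
    rw [tot_eq hz]
    push_cast
    linarith
  rw [sum_congr rfl h1, sum_Ico_lin _ (zpos_strictMono hz (Nat.lt_succ_self j)).le, WW_gap]
  unfold gap
  ring

omit hz in
lemma tot_periodic (ha : IsPeriodic a L) (m x : ℕ) : tot a m (x + L) = tot a m x := by
  unfold tot NS
  have : (fun n => a (n + (x + L))) = fun n => a (n + x) := by
    funext n
    rw [← add_assoc, ha]
  rw [this]

/-- **Exact formula** for the mean total number of visits to the children. -/
lemma sum_tot (ha : IsPeriodic a L) (m : ℕ) :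
    ∑ x ∈ range L, tot a (m + 1) x =
      ∑ j ∈ range (num L a 0), (gap a j + 1) * (WW (gap a) (j + 1) m + gap a j / 2) := by
  have h1 : ∀ n, ∑ x ∈ Ico (zpos a 0 + 1) (zpos a n + 1), tot a (m + 1) x =
      ∑ j ∈ range n, (gap a j + 1) * (WW (gap a) (j + 1) m + gap a j / 2) := by
    intro n
    induction n with
    | zero => simp
    | succ n ih =>
      rw [sum_range_succ, ← ih, ← sum_block hz m n]
      rw [sum_Ico_consecutive]
      · have := (zpos_strictMono hz).monotone (Nat.zero_le n)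
        omega
      · have := zpos_strictMono hz (Nat.lt_succ_self n)
        simp only [Nat.succ_eq_add_one] at this
        omega
  rw [← h1, ← sum_range_shift (tot a (m + 1)) L (fun x => tot_periodic ha (m + 1) x)
    (zpos a 0 + 1)]
  have h2 := zpos_period hz ha 0
  rw [zero_add] at h2
  rw [h2, sum_Ico_eq_sum_range]
  have h3 : zpos a 0 + L + 1 - (zpos a 0 + 1) = L := by omega
  rw [h3]
  refine sum_congr rfl fun x _ => ?_
  rw [add_comm x]

/-- the mean total number of visits, in terms of correlations -/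
lemma sum_tot' (ha : IsPeriodic a L) (m : ℕ) :
    ∑ x ∈ range L, tot a (m + 1) x =
      (∑ j ∈ range (num L a 0), gap a j ^ 2 +
        2 * ∑ j ∈ range (num L a 0), gap a j * WW (gap a) (j + 1) m) / 2 +
      (m + 1 / 2) * ((L : ℝ) - num L a 0) := by
  rw [sum_tot hz ha]
  have h1 := sum_WW (gap_periodic hz ha) 1 m
  rw [sum_gap hz ha] at h1
  have h2 := sum_gap hz ha
  have h3 : ∀ j, (gap a j + 1) * (WW (gap a) (j + 1) m + gap a j / 2) =
      gap a j * WW (gap a) (j + 1) m + WW (gap a) (j + 1) m + (1 / 2) * gap a j ^ 2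
        + (1 / 2) * gap a j := by
    intro j
    ring
  rw [sum_congr rfl fun j _ => h3 j, sum_add_distrib, sum_add_distrib, sum_add_distrib, h1,
    ← mul_sum, ← mul_sum, h2]
  ring

/-- **Lower bound** for the mean total number of visits to the children. -/
lemma sum_tot_ge (hL : 0 < L) (ha : IsPeriodic a L) (m : ℕ) :
    ((m : ℝ) + 1) * ((L : ℝ) - num L a 0) ^ 2 / (2 * num L a 0) +
      (m + 1 / 2) * ((L : ℝ) - num L a 0) ≤ ∑ x ∈ range L, tot a (m + 1) x := by
  rw [sum_tot' hz ha]
  have h1 := fejer (gap_periodic hz ha) (gap_nonneg hz) m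
  rw [sum_gap hz ha] at h1
  have hn : (0 : ℝ) < num L a 0 := by exact_mod_cast num_pos hL ha hz
  have h2 : ((m : ℝ) + 1) * ((L : ℝ) - num L a 0) ^ 2 / (2 * num L a 0) ≤
      (∑ j ∈ range (num L a 0), gap a j ^ 2 +
        2 * ∑ j ∈ range (num L a 0), gap a j * WW (gap a) (j + 1) m) / 2 := by
    rw [div_le_div_iff₀ (by positivity) (by norm_num)]
    nlinarith
  linarith

end

end Pool.Agent.RotorShift
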