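import Pool.Agent.RotorShift.Det

set_option autoImplicit false

/-!
# Probabilistic part: recursion for the extinction probabilities
-/

namespace Pool.Agent.RotorShift

open MeasureTheory ProbabilityTheory

variable {d L : ℕ}

instance isProb_shiftLaw [NeZero L] : IsProbabilityMeasure (shiftLaw d L) := by
  unfold shiftLaw
  infer_instance

/-- the configuration of shifts in the subtree of the `i`-th child of the root -/
def sub (i : Fin d) (k : Vertex d → Fin L) : Vertex d → Fin L := fun v => k (v ++ [i])

/-- glue a value at the root and configurations in the subtrees -/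
def glue (p : Fin L × (Fin d → Vertex d → Fin L)) : Vertex d → Fin L :=
  fun v => if h : v = [] then p.1 else p.2 (v.getLast h) v.dropLast

lemma glue_nil (p : Fin L × (Fin d → Vertex d → Fin L)) : glue p [] = p.1 := by
  simp [glue]

lemma glue_append (p : Fin L × (Fin d → Vertex d → Fin L)) (v : Vertex d) (i : Fin d) :
    glue p (v ++ [i]) = p.2 i v := by
  simp [glue]

lemma sub_glue (p : Fin L × (Fin d → Vertex d → Fin L)) (i : Fin d) :
    sub i (glue p) = p.2 i := by
  funext v
  exact glue_append p v i

lemma measurable_glue : Measurable (glue : Fin L × (Fin d → Vertex d → Fin L) → _) := by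
  rw [measurable_pi_iff]
  intro v
  rcases List.eq_nil_or_concat v with rfl | ⟨w, i, rfl⟩
  · simp only [glue_nil]
    exact measurable_fst
  · simp only [List.concat_eq_append, glue_append]
    exact (measurable_pi_apply w).comp ((measurable_pi_apply i).comp measurable_snd)

lemma append_injective (i : Fin d) : Function.Injective fun w : Vertex d => w ++ [i] := by
  intro a b h
  exact List.append_cancel_right h

lemma getLast_eq_some_iff (v : Vertex d) (i : Fin d) :
    v.getLast? = some i ↔ v ∈ Set.range fun w : Vertex d => w ++ [i] := by
  constructor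
  · intro h
    obtain ⟨w, hw⟩ := List.getLast?_eq_some_iff.mp h
    exact ⟨w, hw.symm⟩
  · rintro ⟨w, rfl⟩
    simp

lemma prod_split (s : Finset (Vertex d)) (f : Vertex d → ENNReal) :
    ∏ v ∈ s, f v = (if [] ∈ s then f [] else 1) *
      ∏ i : Fin d, ∏ w ∈ s.preimage (fun w : Vertex d => w ++ [i]) (append_injective i).injOn,
        f (w ++ [i]) := by
  classical
  rw [← Finset.prod_fiberwise s (fun v => v.getLast?) f, Fintype.prod_option]
  congr 1
  · by_cases h : [] ∈ s
    · rw [if_pos h]
      have : (s.filter fun v => v.getLast? = none) = {[]} := by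
        ext v
        simp only [Finset.mem_filter, List.getLast?_eq_none_iff, Finset.mem_singleton]
        constructor
        · exact fun h => h.2
        · intro hv
          exact ⟨hv ▸ h, hv⟩
      rw [this, Finset.prod_singleton]
    · rw [if_neg h]
      apply Finset.prod_eq_one
      intro v hv
      simp only [Finset.mem_filter, List.getLast?_eq_none_iff] at hv
      exact absurd (hv.2 ▸ hv.1) h
  · refine Finset.prod_congr rfl ?_
    intro i _
    rw [Finset.prod_preimage' (fun w : Vertex d => w ++ [i]) s (append_injective i).injOn f]
    refine Finset.prod_congr ?_ fun _ _ => rfl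
    ext v
    simp only [Finset.mem_filter, getLast_eq_some_iff]

lemma map_glue [NeZero L] :
    Measure.map glue ((uniformOn (Set.univ : Set (Fin L))).prod
      (Measure.pi fun _ : Fin d => shiftLaw d L)) = shiftLaw d L := by
  classical
  refine Measure.eq_infinitePi _ ?_
  intro s t _
  rw [Measure.map_apply measurable_glue
    (MeasurableSet.pi s.countable_toSet fun _ _ => MeasurableSet.of_discrete)]
  have hpre : glue ⁻¹' (Set.pi s t) =
      (if [] ∈ s then t [] else Set.univ) ×ˢ (Set.univ.pi fun i : Fin d =>
        Set.pi (s.preimage (fun w : Vertex d => w ++ [i]) (append_injective i).injOn)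
          (fun w => t (w ++ [i]))) := by
    ext p
    simp only [Set.mem_preimage, Set.mem_pi, Finset.mem_coe, Set.mem_prod, Set.mem_univ,
      true_implies, Finset.mem_preimage]
    constructor
    · intro h
      refine ⟨?_, ?_⟩
      · split_ifs with h0
        · have := h [] h0
          rwa [glue_nil] at this
        · trivial
      · intro i w hw
        have := h _ hw
        rwa [glue_append] at this
    · rintro ⟨h1, h2⟩ v hv
      rcases List.eq_nil_or_concat v with rfl | ⟨w, i, rfl⟩
      · rw [if_pos hv] at h1
        rw [glue_nil]
        exact h1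
      · rw [List.concat_eq_append] at hv ⊢
        rw [glue_append]
        exact h2 i w hv
  rw [hpre, Measure.prod_prod, Measure.pi_pi, prod_split]
  congr 1
  · split_ifs
    · rfl
    · exact measure_univ
  · refine Finset.prod_congr rfl ?_
    intro i _
    unfold shiftLaw
    rw [Measure.infinitePi_pi _ (fun _ _ => MeasurableSet.of_discrete)]

/-- independence of the root and the subtrees -/
lemma law_split [NeZero L] (x : Fin L) (B : Fin d → Set (Vertex d → Fin L))
    (hB : ∀ i, MeasurableSet (B i)) :
    shiftLaw d L {k | k [] = x ∧ ∀ i, sub i k ∈ B i} =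
      (L : ENNReal)⁻¹ * ∏ i, shiftLaw d L (B i) := by
  have hmsub : ∀ i : Fin d, Measurable (sub i : (Vertex d → Fin L) → _) := by
    intro i
    rw [measurable_pi_iff]
    intro v
    exact measurable_pi_apply _
  have hm : MeasurableSet {k : Vertex d → Fin L | k [] = x ∧ ∀ i, sub i k ∈ B i} := by
    have hset : {k : Vertex d → Fin L | k [] = x ∧ ∀ i, sub i k ∈ B i} =
        (fun k : Vertex d → Fin L => k []) ⁻¹' {x} ∩ ⋂ i, sub i ⁻¹' (B i) := by
      ext k
      simp
    rw [hset]
    have h1 : Measurable (fun k : Vertex d → Fin L => k []) := measurable_pi_apply _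
    exact (h1 (measurableSet_singleton x)).inter
      (MeasurableSet.iInter fun i => hmsub i (hB i))
  conv_lhs => rw [← map_glue]
  rw [Measure.map_apply measurable_glue hm]
  have hpre : glue ⁻¹' {k : Vertex d → Fin L | k [] = x ∧ ∀ i, sub i k ∈ B i} =
      {x} ×ˢ (Set.univ.pi B) := by
    ext p
    simp only [Set.mem_preimage, Set.mem_ofPred_eq, glue_nil, sub_glue, Set.mem_prod,
      Set.mem_singleton_iff, Set.mem_pi, Set.mem_univ, true_implies]
  rw [hpre, Measure.prod_prod, Measure.pi_pi]
  congr 1
  rw [uniformOn_univ]
  simp

end Pool.Agent.RotorShift
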