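import Pool.Agent.RotorShift.Trans

set_option autoImplicit false

/-!
# Recurrence for rotor sequences made of blocks `0, i, j`
-/

namespace Pool.Agent.RotorShift

open Finset MeasureTheory Filter Topology

variable {d L : ℕ}

lemma blockForm_shift {a : ℕ → Fin (d + 1)} (hb : BlockForm a) (x : ℕ) :
    BlockForm (fun n => a (n + x)) := by
  intro y hy
  have h := hb (y + x) hy
  refine ⟨?_, ?_, ?_, ?_⟩ <;> beta_reduce
  · rw [show y + 1 + x = y + x + 1 by ring]; exact h.1
  · rw [show y + 2 + x = y + x + 2 by ring]; exact h.2.1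
  · rw [show y + 1 + x = y + x + 1 by ring, show y + 2 + x = y + x + 2 by ring]; exact h.2.2.1
  · rw [show y + 3 + x = y + x + 3 by ring]; exact h.2.2.2

lemma blockForm_iter {a : ℕ → Fin (d + 1)} (hb : BlockForm a) {z : ℕ} (hz : a z = 0) (j : ℕ) :
    a (z + 3 * j) = 0 := by
  induction j with
  | zero => simpa using hz
  | succ j ih =>
    rw [show z + 3 * (j + 1) = z + 3 * j + 3 by ring]
    exact (hb _ ih).2.2.2

lemma blockForm_cases {a : ℕ → Fin (d + 1)} (hL : 0 < L) (ha : IsPeriodic a L)
    (hz : {n | a n = 0}.Infinite) (hb : BlockForm a) (x : ℕ) :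
    (a x = 0 ∧ a (x + 1) ≠ 0 ∧ a (x + 2) ≠ 0) ∨
    (a x ≠ 0 ∧ a (x + 1) ≠ 0 ∧ a (x + 2) = 0 ∧ a x ≠ a (x + 1)) ∨
    (a x ≠ 0 ∧ a (x + 1) = 0 ∧ a (x + 2) ≠ 0) := by
  obtain ⟨z, hz0⟩ := hz.nonempty
  have hz0' : a z = 0 := hz0
  have hle : z ≤ x + z * L := (Nat.le_mul_of_pos_right z hL).trans (Nat.le_add_left _ _)
  obtain ⟨y, hy⟩ := Nat.exists_eq_add_of_le hle
  have h0 : a (x + z * L) = a x := periodic_mul ha z x
  have h1 : a (x + 1 + z * L) = a (x + 1) := periodic_mul ha z (x + 1)
  have h2 : a (x + 2 + z * L) = a (x + 2) := periodic_mul ha z (x + 2)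
  have hmod := Nat.div_add_mod y 3
  have hlt := Nat.mod_lt y (show 0 < 3 by norm_num)
  have hA := hb _ (blockForm_iter hb hz0' (y / 3))
  rw [← h0, ← h1, ← h2]
  rcases Nat.lt_or_ge (y % 3) 1 with hr | hr
  · left
    have e0 : x + z * L = z + 3 * (y / 3) := by omega
    have e1 : x + 1 + z * L = z + 3 * (y / 3) + 1 := by omega
    have e2 : x + 2 + z * L = z + 3 * (y / 3) + 2 := by omega
    rw [e0, e1, e2]
    exact ⟨blockForm_iter hb hz0' _, hA.1, hA.2.1⟩
  · rcases Nat.lt_or_ge (y % 3) 2 with hr' | hr'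
    · right; left
      have e0 : x + z * L = z + 3 * (y / 3) + 1 := by omega
      have e1 : x + 1 + z * L = z + 3 * (y / 3) + 2 := by omega
      have e2 : x + 2 + z * L = z + 3 * (y / 3) + 3 := by omega
      rw [e0, e1, e2]
      exact ⟨hA.1, hA.2.1, hA.2.2.2, hA.2.2.1⟩
    · right; right
      have e0 : x + z * L = z + 3 * (y / 3) + 2 := by omega
      have e1 : x + 1 + z * L = z + 3 * (y / 3) + 3 := by omega
      have e2 : x + 2 + z * L = z + 3 * (y / 3) + 3 + 1 := by omega
      rw [e0, e1, e2]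
      exact ⟨hA.2.1, hA.2.2.2, (hb _ hA.2.2.2).1⟩

/-- within a block each letter occurs at most once -/
lemma cnt_block {b : ℕ → Fin (d + 1)} (hb : BlockForm b) {z : ℕ} (hz : b z = 0) (i : Fin d) :
    cnt b i.succ (z + 4) ≤ cnt b i.succ (z + 1) + 1 := by
  have h := hb z hz
  have e3 : cnt b i.succ (z + 3 + 1) = cnt b i.succ (z + 3) :=
    cnt_succ_ne (by rw [h.2.2.2]; exact (Fin.succ_ne_zero i).symm)
  have e4 : z + 4 = z + 3 + 1 := by ring
  rw [e4, e3]
  by_cases h2 : b (z + 2) = i.succ
  · have h1 : b (z + 1) ≠ i.succ := fun h1 => h.2.2.1 (h1.trans h2.symm)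
    have e1 : cnt b i.succ (z + 1 + 1) = cnt b i.succ (z + 1) := cnt_succ_ne h1
    have e2 : cnt b i.succ (z + 2 + 1) = cnt b i.succ (z + 2) + 1 := cnt_succ_eq h2
    rw [show z + 3 = z + 2 + 1 by ring, e2, show z + 2 = z + 1 + 1 by ring, e1]
  · have e2 : cnt b i.succ (z + 2 + 1) = cnt b i.succ (z + 2) := cnt_succ_ne h2
    rw [show z + 3 = z + 2 + 1 by ring, e2, show z + 2 = z + 1 + 1 by ring]
    by_cases h1 : b (z + 1) = i.succ
    · rw [cnt_succ_eq h1]
    · rw [cnt_succ_ne h1]
      omega

lemma zpos_block {b : ℕ → Fin (d + 1)} (hb : BlockForm b) (hz : {n | b n = 0}.Infinite) (m : ℕ) :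
    zpos b (m + 1) = zpos b m + 3 := by
  have h0 := zpos_mem hz m
  have h := hb _ h0
  rw [← zpos_cnt h.2.2.2]
  congr 1
  have e0 : cnt b 0 (zpos b m + 1) = cnt b 0 (zpos b m) + 1 := cnt_succ_eq h0
  have e1 : cnt b 0 (zpos b m + 1 + 1) = cnt b 0 (zpos b m + 1) := cnt_succ_ne h.1
  have e2 : cnt b 0 (zpos b m + 2 + 1) = cnt b 0 (zpos b m + 2) := cnt_succ_ne h.2.1
  rw [show zpos b m + 3 = zpos b m + 2 + 1 by ring, e2,
    show zpos b m + 2 = zpos b m + 1 + 1 by ring, e1, e0, cnt_zpos hz]

lemma NN_block {b : ℕ → Fin (d + 1)} (hb : BlockForm b) (hz : {n | b n = 0}.Infinite)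
    (i : Fin d) (m : ℕ) : NN b i (m + 1) ≤ NN b i 1 + m := by
  induction m with
  | zero => simp
  | succ m ih =>
    have h1 : NN b i (m + 1 + 1) = cnt b i.succ (zpos b m + 4) := by
      unfold NN
      change cnt b i.succ (zpos b (m + 1) + 1) = _
      rw [zpos_block hb hz]
    have h2 : NN b i (m + 1) = cnt b i.succ (zpos b m + 1) := rfl
    have h3 := cnt_block hb (zpos_mem hz m) i
    omega

lemma tz_one {b : ℕ → Fin (d + 1)} {z : ℕ} (hz : b z = 0) (h : cnt b 0 z = 0) :
    tz b 1 = z + 1 := by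
  have := zpos_cnt hz
  rw [h] at this
  change zpos b 0 + 1 = z + 1
  rw [this]

lemma cnt_one (b : ℕ → Fin (d + 1)) (r : Fin (d + 1)) :
    cnt b r 1 = if b 0 = r then 1 else 0 := by
  by_cases h : b 0 = r
  · have := cnt_succ_eq (b := b) (r := r) (m := 0) h
    rw [cnt_zero, zero_add] at this
    rw [this, if_pos h]
  · have := cnt_succ_ne (b := b) (r := r) (m := 0) h
    rw [cnt_zero, zero_add] at this
    rw [this, if_neg h]

/-- number of full children in the three phases -/
lemma phaseA {b : ℕ → Fin (d + 1)} (hb : BlockForm b) (hz : {n | b n = 0}.Infinite)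
    (h0 : b 0 = 0) (i : Fin d) (m : ℕ) : NN b i (m + 1) ≤ m := by
  have h1 := NN_block hb hz i m
  have h2 : NN b i 1 = 0 := by
    unfold NN
    rw [tz_one h0 (cnt_zero _ _), zero_add, cnt_one, if_neg (by rw [h0]; exact (Fin.succ_ne_zero i).symm)]
  omega

lemma phaseC {b : ℕ → Fin (d + 1)} (hb : BlockForm b) (hz : {n | b n = 0}.Infinite)
    (h0 : b 0 ≠ 0) (h1 : b 1 = 0) (i : Fin d) (m : ℕ) :
    NN b i (m + 1) ≤ m + (if b 0 = i.succ then 1 else 0) := by
  have h2 := NN_block hb hz i m
  have h3 : NN b i 1 = if b 0 = i.succ then 1 else 0 := by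
    unfold NN
    have h4 : cnt b 0 1 = 0 := by rw [cnt_one, if_neg h0]
    rw [tz_one h1 h4]
    have h5 := cnt_succ_ne (b := b) (r := i.succ) (m := 1)
      (by rw [h1]; exact (Fin.succ_ne_zero i).symm)
    rw [h5, cnt_one]
  omega

lemma phaseB {b : ℕ → Fin (d + 1)} (hb : BlockForm b) (hz : {n | b n = 0}.Infinite)
    (h0 : b 0 ≠ 0) (h1 : b 1 ≠ 0) (h2 : b 2 = 0) (h01 : b 0 ≠ b 1) (i : Fin d) (m : ℕ) :
    NN b i (m + 1) ≤ m + (if b 0 = i.succ ∨ b 1 = i.succ then 1 else 0) := by
  have h3 := NN_block hb hz i m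
  have h4 : NN b i 1 = if b 0 = i.succ ∨ b 1 = i.succ then 1 else 0 := by
    unfold NN
    have h5 : cnt b 0 2 = 0 := by
      have := cnt_succ_ne (b := b) (r := 0) (m := 1) h1
      rw [this, cnt_one, if_neg h0]
    rw [tz_one h2 h5]
    have h6 := cnt_succ_ne (b := b) (r := i.succ) (m := 2)
      (by rw [h2]; exact (Fin.succ_ne_zero i).symm)
    rw [h6]
    by_cases hb1 : b 1 = i.succ
    · have h7 := cnt_succ_eq (b := b) (r := i.succ) (m := 1) hb1
      have hb0 : b 0 ≠ i.succ := fun h => h01 (h.trans hb1.symm)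
      rw [if_pos (Or.inr hb1)]
      change cnt b i.succ (1 + 1) = 1
      rw [h7, cnt_one, if_neg hb0]
    · have h7 := cnt_succ_ne (b := b) (r := i.succ) (m := 1) hb1
      change cnt b i.succ (1 + 1) = _
      rw [h7, cnt_one]
      by_cases hb0 : b 0 = i.succ
      · rw [if_pos hb0, if_pos (Or.inl hb0)]
      · rw [if_neg hb0, if_neg (by tauto)]
  omega

lemma sum_ind (a : ℕ → Fin (d + 1)) (u : ℕ) :
    ∑ x ∈ range u, (if a x = 0 then (1 : ℝ) else 0) = cnt a 0 u := by
  induction u with
  | zero => simp [cnt_zero]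
  | succ u ih =>
    rw [sum_range_succ, ih]
    by_cases h : a u = 0
    · rw [if_pos h, cnt_succ_eq h]
      push_cast
      ring
    · rw [if_neg h, cnt_succ_ne h, add_zero]

lemma sum_ind_shift {a : ℕ → Fin (d + 1)} (ha : IsPeriodic a L) (c : ℕ) :
    ∑ x ∈ range L, (if a (x + c) = 0 then (1 : ℝ) else 0) = num L a 0 := by
  rw [sum_range_shift (fun x => if a x = 0 then (1 : ℝ) else 0) L
    (fun x => by simp only [ha x]) c, sum_ind]
  rfl

/-- a product over the children whose factors are `1` except for few full children -/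
lemma prod_full_ge {Q : ℝ} (hQ0 : 0 ≤ Q) (hQ1 : Q ≤ 1) (N : Fin d → ℕ) (m : ℕ)
    (S : Finset (Fin d)) (hS : ∀ i, N i = m → i ∈ S) :
    Q ^ S.card ≤ ∏ i, (if N i = m then Q else 1) := by
  classical
  rw [Finset.prod_ite]
  simp only [prod_const, one_pow, mul_one]
  apply pow_le_pow_of_le_one hQ0 hQ1
  apply card_le_card
  intro i hi
  simp only [mem_filter, mem_univ, true_and] at hi
  exact hS i hi

theorem tendsto_one_of_blockForm [NeZero L] {a : ℕ → Fin (d + 1)} (ha : IsPeriodic a L)
    (hz : {n | a n = 0}.Infinite) (hb : BlockForm a) (m : ℕ) :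
    Tendsto (fun n => qr L a n m) atTop (𝓝 1) := by
  classical
  have hL : 0 < L := Nat.pos_of_ne_zero (NeZero.ne L)
  have hLr : (0 : ℝ) < L := by exact_mod_cast hL
  induction m using Nat.strong_induction_on with
  | _ m ih =>
    have hmono : Monotone fun n => qr L a n m := by
      intro n n' h
      exact ENNReal.toReal_mono (measure_ne_top _ _) (measure_mono (dead_mono a m h))
    have hbdd : BddAbove (Set.range fun n => qr L a n m) :=
      ⟨1, by rintro _ ⟨n, rfl⟩; exact qr_le_one a n m⟩
    have hlim := tendsto_atTop_ciSup hmono hbdd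
    set Q : ℝ := ⨆ n, qr L a n m with hQ
    have hQ0 : 0 ≤ Q := le_trans (qr_nonneg a 0 m) (le_ciSup hbdd 0)
    have hQ1 : Q ≤ 1 := ciSup_le fun n => qr_le_one a n m
    rcases Nat.eq_zero_or_pos m with rfl | hm
    · have : ∀ n, qr L a n 0 = 1 := by
        intro n
        have h1 := hmono (Nat.zero_le n)
        simp only [qr_zero, if_true] at h1
        exact le_antisymm (qr_le_one a n 0) h1
      simp only [this]
      exact tendsto_const_nhds
    obtain ⟨k, rfl⟩ : ∃ k, m = k + 1 := ⟨m - 1, by omega⟩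
    -- limit of the recursion
    have hlim2 : Tendsto (fun n => qr L a (n + 1) (k + 1)) atTop (𝓝 Q) :=
      hlim.comp (tendsto_add_atTop_nat 1)
    have hNle : ∀ x i, NS a x i (k + 1) ≤ k + 1 := by
      intro x i
      have hzs := zeros_shift hz x
      have hbs := blockForm_shift hb x
      unfold NS
      rcases blockForm_cases hL ha hz hb x with h | h | h
      · have := phaseA hbs hzs (by simpa using h.1) i k
        omega
      · have := phaseB hbs hzs (by simpa using h.1) (by rw [add_comm 1 x]; exact h.2.1)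
          (by rw [add_comm 2 x]; exact h.2.2.1)
          (by rw [zero_add, add_comm 1 x]; exact h.2.2.2) i k
        split_ifs at this <;> omega
      · have := phaseC hbs hzs (by simpa using h.1) (by rw [add_comm 1 x]; exact h.2.1) i k
        split_ifs at this <;> omega
    have hfac : ∀ x i, Tendsto (fun n => qr L a n (NS a x i (k + 1))) atTop
        (𝓝 (if NS a x i (k + 1) = k + 1 then Q else 1)) := by
      intro x i
      by_cases h : NS a x i (k + 1) = k + 1
      · rw [if_pos h, h]
        exact hlim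
      · rw [if_neg h]
        exact ih _ (lt_of_le_of_ne (hNle x i) h)
    have hrec : Tendsto (fun n => qr L a (n + 1) (k + 1)) atTop
        (𝓝 ((L : ℝ)⁻¹ * ∑ x : Fin L, ∏ i, (if NS a (x : ℕ) i (k + 1) = k + 1 then Q else 1))) := by
      have h1 : (fun n => qr L a (n + 1) (k + 1)) =
          fun n => (L : ℝ)⁻¹ * ∑ x : Fin L, ∏ i, qr L a n (NS a (x : ℕ) i (k + 1)) := by
        funext n
        exact qr_succ a n (k + 1)
      rw [h1]
      apply Tendsto.const_mul
      apply tendsto_finsetSum
      intro x _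
      apply tendsto_finsetProd
      intro i _
      exact hfac x i
    have heq := tendsto_nhds_unique hlim2 hrec
    -- lower bound for the products
    have hprod : ∀ x : ℕ, (if a x = 0 then (1 : ℝ) else 0) + Q * (if a (x + 1) = 0 then 1 else 0) +
        Q ^ 2 * (if a (x + 2) = 0 then 1 else 0) ≤
        ∏ i, (if NS a x i (k + 1) = k + 1 then Q else 1) := by
      intro x
      have hzs := zeros_shift hz x
      have hbs := blockForm_shift hb x
      rcases blockForm_cases hL ha hz hb x with h | h | h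
      · have h1 := prod_full_ge hQ0 hQ1 (fun i => NS a x i (k + 1)) (k + 1) ∅ (by
          intro i hi
          have := phaseA hbs hzs (by simpa using h.1) i k
          unfold NS at hi
          omega)
        rw [if_pos h.1, if_neg h.2.1, if_neg h.2.2]
        simpa using h1
      · obtain ⟨i0, hi0⟩ := Fin.eq_succ_of_ne_zero h.1
        obtain ⟨i1, hi1⟩ := Fin.eq_succ_of_ne_zero h.2.1
        have h1 := prod_full_ge hQ0 hQ1 (fun i => NS a x i (k + 1)) (k + 1) {i0, i1} (by
          intro i hi
          have := phaseB hbs hzs (by simpa using h.1) (by rw [add_comm 1 x]; exact h.2.1)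
            (by rw [add_comm 2 x]; exact h.2.2.1)
            (by rw [zero_add, add_comm 1 x]; exact h.2.2.2) i k
          unfold NS at hi
          rw [zero_add, add_comm 1 x] at this
          split_ifs at this with hc
          · rw [mem_insert, mem_singleton]
            rcases hc with hc | hc
            · left
              rw [hi0] at hc
              exact (Fin.succ_injective _ hc).symm
            · right
              rw [hi1] at hc
              exact (Fin.succ_injective _ hc).symm
          · omega)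
        rw [if_neg h.1, if_neg h.2.1, if_pos h.2.2.1]
        have h2 : Q ^ 2 ≤ Q ^ ({i0, i1} : Finset (Fin d)).card :=
          pow_le_pow_of_le_one hQ0 hQ1 (card_le_two)
        linarith
      · obtain ⟨i0, hi0⟩ := Fin.eq_succ_of_ne_zero h.1
        have h1 := prod_full_ge hQ0 hQ1 (fun i => NS a x i (k + 1)) (k + 1) {i0} (by
          intro i hi
          have := phaseC hbs hzs (by simpa using h.1) (by rw [add_comm 1 x]; exact h.2.1) i k
          unfold NS at hi
          rw [zero_add] at this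
          split_ifs at this with hc
          · rw [mem_singleton]
            rw [hi0] at hc
            exact (Fin.succ_injective _ hc).symm
          · omega)
        rw [if_neg h.1, if_pos h.2.1, if_neg h.2.2]
        simp only [card_singleton, pow_one] at h1
        linarith
    -- sum up
    have hone : ∀ x : ℕ, (if a x = 0 then (1 : ℝ) else 0) + (if a (x + 1) = 0 then 1 else 0) +
        (if a (x + 2) = 0 then 1 else 0) = 1 := by
      intro x
      rcases blockForm_cases hL ha hz hb x with h | h | h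
      · rw [if_pos h.1, if_neg h.2.1, if_neg h.2.2]; norm_num
      · rw [if_neg h.1, if_neg h.2.1, if_pos h.2.2.1]; norm_num
      · rw [if_neg h.1, if_pos h.2.1, if_neg h.2.2]; norm_num
    have h3n : 3 * (num L a 0 : ℝ) = L := by
      have h1 : ∑ x ∈ range L, ((if a x = 0 then (1 : ℝ) else 0) +
          (if a (x + 1) = 0 then 1 else 0) + (if a (x + 2) = 0 then 1 else 0)) = L := by
        rw [sum_congr rfl fun x _ => hone x]
        simp
      rw [sum_add_distrib, sum_add_distrib] at h1
      have e0 := sum_ind_shift ha 0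
      have e1 := sum_ind_shift ha 1
      have e2 := sum_ind_shift ha 2
      simp only [add_zero] at e0
      linarith
    have hsum : (num L a 0 : ℝ) * (1 + Q + Q ^ 2) ≤
        ∑ x : Fin L, ∏ i, (if NS a (x : ℕ) i (k + 1) = k + 1 then Q else 1) := by
      have h1 : ∑ x ∈ range L, ((if a x = 0 then (1 : ℝ) else 0) +
          Q * (if a (x + 1) = 0 then 1 else 0) + Q ^ 2 * (if a (x + 2) = 0 then 1 else 0)) ≤
          ∑ x ∈ range L, ∏ i, (if NS a x i (k + 1) = k + 1 then Q else 1) :=
        sum_le_sum fun x _ => hprod x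
      rw [sum_add_distrib, sum_add_distrib, ← mul_sum, ← mul_sum] at h1
      have e0 := sum_ind_shift ha 0
      have e1 := sum_ind_shift ha 1
      have e2 := sum_ind_shift ha 2
      simp only [add_zero] at e0
      rw [e0, e1, e2] at h1
      rw [← Finset.sum_range (fun x => ∏ i, (if NS a x i (k + 1) = k + 1 then Q else 1))]
      linarith
    have hn : (0 : ℝ) < num L a 0 := by exact_mod_cast num_pos hL ha hz
    have hfin : (L : ℝ) * Q = ∑ x : Fin L, ∏ i, (if NS a (x : ℕ) i (k + 1) = k + 1 then Q else 1) := by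
      rw [eq_inv_mul_iff_mul_eq₀ hLr.ne'] at heq
      exact heq
    rw [← hfin, ← h3n] at hsum
    have h4 : (1 - Q) ^ 2 ≤ 0 := by
      by_contra hcon
      push Not at hcon
      nlinarith
    have h5 : Q = 1 := by
      have := pow_eq_zero_iff (two_ne_zero) |>.mp (le_antisymm h4 (sq_nonneg _))
      linarith
    rw [h5] at hlim
    exact hlim

/-- recurrence for block sequences -/
theorem recurrent_of_blockForm [NeZero L] {a : ℕ → Fin (d + 1)} (ha : IsPeriodic a L)
    (hnd : Nondegenerate a) (hb : BlockForm a) :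
    ∀ᵐ k ∂(shiftLaw d L), IsRecurrent (shiftConfig a k) :=
  ae_recurrent (hnd 0) fun m => tendsto_one_of_blockForm ha (hnd 0) hb m

/-! ### Existence of non-degenerate block sequences -/

/-- the sequence `0, 1, 2, 0, 2, 3, …, 0, d, 1` repeated -/
def blockSeq (d : ℕ) [NeZero d] (n : ℕ) : Fin (d + 1) :=
  if n % 3 = 0 then 0 else
    if n % 3 = 1 then (Fin.ofNat d (n / 3)).succ else (Fin.ofNat d (n / 3 + 1)).succ

lemma blockSeq_periodic (d : ℕ) [NeZero d] : IsPeriodic (blockSeq d) (3 * d) := by
  intro n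
  unfold blockSeq
  have h1 : (n + 3 * d) % 3 = n % 3 := by omega
  have h2 : (n + 3 * d) / 3 = n / 3 + d := by omega
  have h3 : Fin.ofNat d (n / 3 + d) = Fin.ofNat d (n / 3) := by
    apply Fin.ext
    simp [Fin.ofNat]
  have h4 : Fin.ofNat d (n / 3 + d + 1) = Fin.ofNat d (n / 3 + 1) := by
    apply Fin.ext
    simp only [Fin.ofNat]
    rw [show n / 3 + d + 1 = n / 3 + 1 + d by ring, Nat.add_mod_right]
  rw [h1, h2, h3, h4]

lemma blockSeq_blockForm (d : ℕ) [NeZero d] (hd : 2 ≤ d) : BlockForm (blockSeq d) := by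
  intro x hx
  have hx0 : x % 3 = 0 := by
    by_contra h
    unfold blockSeq at hx
    rw [if_neg h] at hx
    split_ifs at hx <;> exact Fin.succ_ne_zero _ hx
  have h1 : blockSeq d (x + 1) = (Fin.ofNat d (x / 3)).succ := by
    unfold blockSeq
    rw [if_neg (by omega), if_pos (by omega), show (x + 1) / 3 = x / 3 by omega]
  have h2 : blockSeq d (x + 2) = (Fin.ofNat d (x / 3 + 1)).succ := by
    unfold blockSeq
    rw [if_neg (by omega), if_neg (by omega), show (x + 2) / 3 = x / 3 by omega]
  have h3 : blockSeq d (x + 3) = 0 := by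
    unfold blockSeq
    rw [if_pos (by omega)]
  rw [h1, h2, h3]
  refine ⟨Fin.succ_ne_zero _, Fin.succ_ne_zero _, ?_, rfl⟩
  intro h
  have h4 := congrArg Fin.val (Fin.succ_injective _ h)
  simp only [Fin.ofNat] at h4
  have h5 : (x / 3 + 1) % d = (x / 3 % d + 1) % d := by
    rw [Nat.add_mod, Nat.mod_eq_of_lt (show 1 < d by omega)]
  rw [h5] at h4
  have h6 : x / 3 % d < d := Nat.mod_lt _ (by omega)
  rcases Nat.lt_or_ge (x / 3 % d + 1) d with h7 | h7
  · rw [Nat.mod_eq_of_lt h7] at h4
    omega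
  · have h8 : x / 3 % d + 1 = d := by omega
    rw [h8, Nat.mod_self] at h4
    omega

lemma blockSeq_nondegenerate (d : ℕ) [NeZero d] : Nondegenerate (blockSeq d) := by
  intro r
  have hd : 0 < d := Nat.pos_of_ne_zero (NeZero.ne d)
  rw [Set.infinite_iff_exists_gt]
  intro N
  rcases Fin.eq_zero_or_eq_succ r with rfl | ⟨i, rfl⟩
  · refine ⟨3 * (N + 1), ?_, by omega⟩
    simp only [Set.mem_ofPred_eq]
    unfold blockSeq
    rw [if_pos (by omega)]
  · refine ⟨3 * ((N + 1) * d + i) + 1, ?_, ?_⟩
    · simp only [Set.mem_ofPred_eq]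
      unfold blockSeq
      rw [if_neg (by omega), if_pos (by omega)]
      congr 1
      apply Fin.ext
      simp only [Fin.ofNat]
      have h1 : (3 * ((N + 1) * d + (i : ℕ)) + 1) / 3 = (N + 1) * d + i := by omega
      rw [h1, Nat.mul_comm, Nat.mul_add_mod, Nat.mod_eq_of_lt i.2]
    · have : N + 1 ≤ (N + 1) * d := Nat.le_mul_of_pos_right _ hd
      omega

end Pool.Agent.RotorShift
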