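import Pool.Agent.RotorShift.Ext

set_option autoImplicit false

/-!
# Survival of the tree of visited vertices from a mean-growth condition
-/

namespace Pool.Agent.RotorShift

open MeasureTheory ProbabilityTheory Filter Topology

variable {d L : ℕ}

/-- number of occurrences of `r` in a period -/
def num (L : ℕ) (a : ℕ → Fin (d + 1)) (r : Fin (d + 1)) : ℕ := cnt a r L

lemma cnt_add (b : ℕ → Fin (d + 1)) (r : Fin (d + 1)) (x y : ℕ) :
    cnt b r (x + y) = cnt b r x + cnt (fun n => b (n + x)) r y := by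
  unfold cnt
  rw [Nat.count_add]
  congr 2
  funext n
  rw [add_comm x n]

lemma periodic_mul {a : ℕ → Fin (d + 1)} (ha : IsPeriodic a L) (q n : ℕ) :
    a (n + q * L) = a n := by
  induction q with
  | zero => simp
  | succ q ih =>
    rw [Nat.succ_mul, ← add_assoc, ha, ih]

lemma cnt_period {a : ℕ → Fin (d + 1)} (ha : IsPeriodic a L) (r : Fin (d + 1)) (x : ℕ) :
    cnt (fun n => a (n + x)) r L = num L a r := by
  induction x with
  | zero => rfl
  | succ x ih =>
    have h1 := cnt_add (fun n => a (n + x)) r 1 L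
    have h2 := cnt_add (fun n => a (n + x)) r L 1
    rw [add_comm 1 L] at h1
    rw [h1] at h2
    have h3 : cnt (fun n => a (n + L + x)) r 1 = cnt (fun n => a (n + x)) r 1 := by
      congr 1
      funext n
      rw [show n + L + x = n + x + L by ring, ha]
    have h4 : (fun n => a (n + 1 + x)) = fun n => a (n + (x + 1)) := by
      funext n
      rw [show n + 1 + x = n + (x + 1) by ring]
    simp only [h3, h4] at h2
    omega

lemma cnt_periods {a : ℕ → Fin (d + 1)} (ha : IsPeriodic a L) (r : Fin (d + 1)) (x q : ℕ) :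
    cnt (fun n => a (n + x)) r (q * L) = q * num L a r := by
  induction q with
  | zero => simp [cnt_zero]
  | succ q ih =>
    rw [Nat.succ_mul, cnt_add, ih]
    have h4 : (fun n => a (n + q * L + x)) = fun n => a (n + (q * L + x)) := by
      funext n
      rw [show n + q * L + x = n + (q * L + x) by ring]
    rw [h4, cnt_period ha, Nat.succ_mul]

lemma num_pos {a : ℕ → Fin (d + 1)} (hL : 0 < L) (ha : IsPeriodic a L) {r : Fin (d + 1)}
    (hr : {n | a n = r}.Infinite) : 0 < num L a r := by
  obtain ⟨m, hm⟩ := hr.nonempty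
  by_contra hcon
  have h0 : num L a r = 0 := by omega
  have h1 : cnt a r (m + 1) ≤ cnt a r ((m + 1) * L) := cnt_mono _ _ (Nat.le_mul_of_pos_right _ hL)
  have h2 := cnt_periods ha r 0 (m + 1)
  simp only [add_zero] at h2
  rw [h2, h0, mul_zero, cnt_succ_eq hm] at h1
  omega

section

variable {a : ℕ → Fin (d + 1)} (hL : 0 < L) (ha : IsPeriodic a L) (hz : {n | a n = 0}.Infinite)

include hL ha hz

lemma tz_le (x m : ℕ) : tz (fun n => a (n + x)) m ≤ m * L := by
  apply tz_le_of_le_cnt
  rw [cnt_periods ha]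
  exact Nat.le_mul_of_pos_right _ (num_pos hL ha hz)

lemma NS_le (x : ℕ) (i : Fin d) (m : ℕ) : NS a x i m ≤ m * L :=
  (cnt_le _ _ _).trans (tz_le hL ha hz x m)

omit hL in
lemma NS_ge (x : ℕ) (i : Fin d) (q m : ℕ) (h : q * num L a 0 < m) :
    q * num L a i.succ ≤ NS a x i m := by
  unfold NS NN
  rw [← cnt_periods ha i.succ x q]
  apply cnt_mono
  apply (lt_tz_of_cnt_lt (zeros_shift hz x) _).le
  rw [cnt_periods ha]
  exact h

omit ha hL in
lemma NS_mono (x : ℕ) (i : Fin d) : Monotone (NS a x i) := NN_mono (zeros_shift hz x) i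

omit ha hL in
lemma typ_mono (k : Vertex d → Fin L) (v : Vertex d) :
    Monotone fun m => typ (shiftConfig a k) m v := by
  induction v with
  | nil => exact fun _ _ h => h
  | cons i v ih =>
    intro m m' h
    exact NN_mono (zeros_shift hz (k v)) i (ih h)

omit ha hL in
lemma qr_antitone [NeZero L] (n : ℕ) : Antitone (qr L a n) := by
  intro m m' h
  unfold qr
  apply ENNReal.toReal_mono (measure_ne_top _ _)
  apply measure_mono
  intro k hk v hv
  have h1 := hk v hv
  have h2 := typ_mono hz k v h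
  simp only at h2
  omega

end

/-- elementary inequality for products -/
lemma prod_one_sub_le {ι : Type*} (s : Finset ι) (y : ι → ℝ) (h0 : ∀ i ∈ s, 0 ≤ y i)
    (h1 : ∀ i ∈ s, y i ≤ 1) :
    ∏ i ∈ s, (1 - y i) ≤ 1 - ∑ i ∈ s, y i + (∑ i ∈ s, y i) ^ 2 := by
  classical
  induction s using Finset.induction_on with
  | empty => simp
  | insert j s hj ih =>
    rw [Finset.prod_insert hj, Finset.sum_insert hj]
    have ih' := ih (fun i hi => h0 i (Finset.mem_insert_of_mem hi))
      (fun i hi => h1 i (Finset.mem_insert_of_mem hi))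
    have hy0 := h0 j (Finset.mem_insert_self _ _)
    have hy1 := h1 j (Finset.mem_insert_self _ _)
    have hS : 0 ≤ ∑ i ∈ s, y i :=
      Finset.sum_nonneg fun i hi => h0 i (Finset.mem_insert_of_mem hi)
    have h2 := mul_le_mul_of_nonneg_left ih' (sub_nonneg.mpr hy1)
    nlinarith [mul_nonneg hy0 hS, mul_nonneg hy0 (mul_nonneg hS hS), sq_nonneg (y j)]

/-- **Survival criterion.** A function on finitely many types `1, …, K` which grows in mean
by a factor `ρ > 1` forces survival with positive probability. -/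
lemma survival [NeZero L] {a : ℕ → Fin (d + 1)} (hz : {n | a n = 0}.Infinite)
    (K : ℕ) (f : ℕ → ℝ) (c C ρ : ℝ) (hc : 0 < c) (hρ : 1 < ρ)
    (hf0 : f 0 = 0) (hfc : ∀ m, 1 ≤ m → m ≤ K → c ≤ f m) (hfC : ∀ m ≤ K, f m ≤ C)
    (hgrow : ∀ m, 1 ≤ m → m ≤ K →
      ρ * f m * L ≤ ∑ x : Fin L, ∑ i, f (min (NS a (x : ℕ) i m) K)) :
    ∃ ε : ℝ, 0 < ε ∧ ∀ n m, 1 ≤ m → 1 ≤ K → qr L a n m ≤ 1 - ε := by
  by_cases hK : 1 ≤ K
  swap
  · exact ⟨1, one_pos, fun n m _ h => absurd h hK⟩
  have hL : (0 : ℝ) < L := by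
    have : 0 < L := Nat.pos_of_ne_zero (NeZero.ne L)
    exact_mod_cast this
  have hC : 0 < C := lt_of_lt_of_le hc ((hfc 1 le_rfl hK).trans (hfC 1 hK))
  have hf_nonneg : ∀ m ≤ K, 0 ≤ f m := by
    intro m hm
    rcases Nat.eq_zero_or_pos m with rfl | h
    · rw [hf0]
    · exact hc.le.trans (hfc m h hm)
  -- choose ε
  obtain ⟨e, he0, heC, heq⟩ : ∃ e : ℝ, 0 < e ∧ e * C ≤ 1 ∧ e * ((d * C) ^ 2) ≤ (ρ - 1) * c := by
    refine ⟨min (1 / C) ((ρ - 1) * c / ((d * C) ^ 2 + 1)), ?_, ?_, ?_⟩
    · refine lt_min (by positivity) (div_pos (mul_pos (by linarith) hc) (by positivity))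
    · calc min (1 / C) ((ρ - 1) * c / ((d * C) ^ 2 + 1)) * C ≤ 1 / C * C :=
          mul_le_mul_of_nonneg_right (min_le_left _ _) hC.le
        _ = 1 := by field_simp
    · have h1 : 0 < (ρ - 1) * c := mul_pos (by linarith) hc
      calc min (1 / C) ((ρ - 1) * c / ((d * C) ^ 2 + 1)) * (d * C) ^ 2
          ≤ (ρ - 1) * c / ((d * C) ^ 2 + 1) * (d * C) ^ 2 :=
          mul_le_mul_of_nonneg_right (min_le_right _ _) (by positivity)
        _ ≤ (ρ - 1) * c := by
          rw [div_mul_eq_mul_div, div_le_iff₀ (by positivity)]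
          nlinarith [sq_nonneg ((d : ℝ) * C)]
  have key : ∀ n m, qr L a n m ≤ 1 - e * f (min m K) := by
    intro n
    induction n with
    | zero =>
      intro m
      rw [qr_zero]
      have h1 : e * f (min m K) ≤ 1 :=
        (mul_le_mul_of_nonneg_left (hfC _ (min_le_right _ _)) he0.le).trans heC
      split_ifs with h
      · subst h
        simp [hf0]
      · linarith
    | succ n ih =>
      -- first the case m ≤ K
      have hle : ∀ m ≤ K, qr L a (n + 1) m ≤ 1 - e * f m := by
        intro m hmK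
        rcases Nat.eq_zero_or_pos m with rfl | hm
        · rw [hf0]
          simpa using qr_le_one a (n + 1) 0
        rw [qr_succ]
        have hx : ∀ x : Fin L, ∏ i, qr L a n (NS a (x : ℕ) i m) ≤
            1 - e * (∑ i, f (min (NS a (x : ℕ) i m) K)) + e ^ 2 * (d * C) ^ 2 := by
          intro x
          have h1 : ∏ i, qr L a n (NS a (x : ℕ) i m) ≤
              ∏ i, (1 - e * f (min (NS a (x : ℕ) i m) K)) :=
            Finset.prod_le_prod (fun i _ => qr_nonneg a n _) fun i _ => ih _
          have h2 := prod_one_sub_le Finset.univ (fun i : Fin d => e * f (min (NS a (x : ℕ) i m) K))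
            (fun i _ => mul_nonneg he0.le (hf_nonneg _ (min_le_right _ _)))
            (fun i _ => (mul_le_mul_of_nonneg_left (hfC _ (min_le_right _ _)) he0.le).trans heC)
          rw [← Finset.mul_sum] at h2
          have h3 : ∑ i : Fin d, f (min (NS a (x : ℕ) i m) K) ≤ d * C := by
            calc ∑ i : Fin d, f (min (NS a (x : ℕ) i m) K) ≤ ∑ _i : Fin d, C :=
                  Finset.sum_le_sum fun i _ => hfC _ (min_le_right _ _)
              _ = d * C := by simp
          have h4 : 0 ≤ ∑ i : Fin d, f (min (NS a (x : ℕ) i m) K) :=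
            Finset.sum_nonneg fun i _ => hf_nonneg _ (min_le_right _ _)
          have h5 : (e * ∑ i : Fin d, f (min (NS a (x : ℕ) i m) K)) ^ 2 ≤ e ^ 2 * (d * C) ^ 2 := by
            rw [mul_pow]
            exact mul_le_mul_of_nonneg_left (pow_le_pow_left₀ h4 h3 2) (by positivity)
          linarith
        have h6 : ∑ x : Fin L, ∏ i, qr L a n (NS a (x : ℕ) i m) ≤
            L - e * (∑ x : Fin L, ∑ i, f (min (NS a (x : ℕ) i m) K)) + L * (e ^ 2 * (d * C) ^ 2) := by
          calc ∑ x : Fin L, ∏ i, qr L a n (NS a (x : ℕ) i m) ≤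
              ∑ x : Fin L, (1 - e * (∑ i, f (min (NS a (x : ℕ) i m) K)) + e ^ 2 * (d * C) ^ 2) :=
                Finset.sum_le_sum fun x _ => hx x
            _ = _ := by
                rw [Finset.sum_add_distrib, Finset.sum_sub_distrib, ← Finset.mul_sum]
                simp
        have h7 := hgrow m hm hmK
        have h8 := hfc m hm hmK
        rw [inv_mul_le_iff₀ hL]
        have h9 : e * (ρ * f m * L) ≤ e * ∑ x : Fin L, ∑ i, f (min (NS a (x : ℕ) i m) K) :=
          mul_le_mul_of_nonneg_left h7 he0.le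
        have h10 : (ρ - 1) * c ≤ (ρ - 1) * f m := mul_le_mul_of_nonneg_left h8 (by linarith)
        have h11 : e * (d * C) ^ 2 ≤ (ρ - 1) * f m := heq.trans h10
        have h12 : e * L * (e * (d * C) ^ 2) ≤ e * L * ((ρ - 1) * f m) :=
          mul_le_mul_of_nonneg_left h11 (by positivity)
        nlinarith
      intro m
      rcases le_total m K with h | h
      · rw [min_eq_left h]
        exact hle m h
      · rw [min_eq_right h]
        exact (qr_antitone hz (n + 1) h).trans (hle K le_rfl)
  refine ⟨e * c, mul_pos he0 hc, ?_⟩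
  intro n m hm _
  have h1 : c ≤ f (min m K) := hfc _ (le_min hm hK) (min_le_right _ _)
  have h2 := mul_le_mul_of_nonneg_left h1 he0.le
  linarith [key n m]

/-- from uniform positivity of the survival probability to almost sure transience -/
lemma ae_transient_of_survival [NeZero L] (hd : 2 ≤ d) {a : ℕ → Fin (d + 1)}
    (ha : IsPeriodic a L) (hnd : Nondegenerate a)
    (ε : ℝ) (hε : 0 < ε) (hsurv : ∀ n m, 1 ≤ m → qr L a n m ≤ 1 - ε) :
    ∀ᵐ k ∂(shiftLaw d L), IsTransient (shiftConfig a k) := by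
  have hL : 0 < L := Nat.pos_of_ne_zero (NeZero.ne L)
  have hLr : (0 : ℝ) < L := by exact_mod_cast hL
  have hz := hnd 0
  have hθ0 : 0 ≤ 1 - ε := (qr_nonneg a 0 1).trans (hsurv 0 1 le_rfl)
  have hθ1 : 1 - ε < 1 := by linarith
  have key : ∀ j : ℕ, ∃ M, 1 ≤ M ∧ ∀ m, M ≤ m → ∀ n, qr L a n m ≤ (1 - ε) ^ (j + 1) := by
    intro j
    induction j with
    | zero => exact ⟨1, le_rfl, fun m hm n => by simpa using hsurv n m hm⟩
    | succ j ih =>
      obtain ⟨M, hM1, hM⟩ := ih
      refine ⟨M * num L a 0 + 1, by omega, ?_⟩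
      intro m hm n
      cases n with
      | zero =>
        rw [qr_zero, if_neg (by omega)]
        positivity
      | succ n =>
        rw [qr_succ, inv_mul_le_iff₀ hLr]
        have hx : ∀ x : Fin L, ∏ i, qr L a n (NS a (x : ℕ) i m) ≤ (1 - ε) ^ (j + 1 + 1) := by
          intro x
          have h1 : ∀ i : Fin d, qr L a n (NS a (x : ℕ) i m) ≤ (1 - ε) ^ (j + 1) := by
            intro i
            apply hM
            have h2 := NS_ge ha hz x i M m (by omega)
            have h3 := num_pos hL ha (hnd i.succ)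
            exact (Nat.le_mul_of_pos_right M h3).trans h2
          calc ∏ i, qr L a n (NS a (x : ℕ) i m) ≤ ∏ _i : Fin d, (1 - ε) ^ (j + 1) :=
                Finset.prod_le_prod (fun i _ => qr_nonneg a n _) fun i _ => h1 i
            _ = (1 - ε) ^ ((j + 1) * d) := by
                rw [Finset.prod_const, Finset.card_univ, Fintype.card_fin, ← pow_mul]
            _ ≤ (1 - ε) ^ (j + 1 + 1) := by
                apply pow_le_pow_of_le_one hθ0 hθ1.le
                nlinarith
        calc ∑ x : Fin L, ∏ i, qr L a n (NS a (x : ℕ) i m) ≤ ∑ _x : Fin L, (1 - ε) ^ (j + 1 + 1) :=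
              Finset.sum_le_sum fun x _ => hx x
          _ = L * (1 - ε) ^ (j + 1 + 1) := by simp
  apply ae_transient hz
  intro η hη
  obtain ⟨j, hj⟩ := exists_pow_lt_of_lt_one hη hθ1
  obtain ⟨M, hM1, hM⟩ := key j
  refine ⟨M, fun n => (hM M le_rfl n).trans ?_⟩
  refine le_trans ?_ hj.le
  exact pow_le_pow_of_le_one hθ0 hθ1.le (Nat.le_succ j)

end Pool.Agent.RotorShift
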