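import Pool.Agent.RotorShift.Growth

set_option autoImplicit false

/-!
# Transience when at most a third of the rotors point to the parent
-/

namespace Pool.Agent.RotorShift

open Finset MeasureTheory

variable {d L : ℕ}

/-- test function on the types -/
noncomputable def ff (δ : ℝ) (m : ℕ) : ℝ := (m : ℝ) - if m = 1 then δ else 0

lemma ff_zero (δ : ℝ) : ff δ 0 = 0 := by simp [ff]

lemma ff_ge {δ : ℝ} (h0 : 0 ≤ δ) (m : ℕ) : (m : ℝ) - δ ≤ ff δ m := by
  unfold ff
  split_ifs <;> linarith

lemma ff_le {δ : ℝ} (h0 : 0 ≤ δ) (m : ℕ) : ff δ m ≤ m := by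
  unfold ff
  split_ifs <;> linarith

lemma sum_num (a : ℕ → Fin (d + 1)) :
    (num L a 0 : ℝ) + ∑ i : Fin d, (num L a i.succ : ℝ) = L := by
  have h := sum_cnt a L
  rw [Fin.sum_univ_succ] at h
  unfold num
  exact_mod_cast h

/-- mean number of full children of a vertex of large type, truncated -/
lemma sigma_gt_one (hd : 2 ≤ d) (hL : 0 < L) {a : ℕ → Fin (d + 1)}
    (ha : IsPeriodic a L) (hnd : Nondegenerate a) (h3 : 3 * num L a 0 ≤ L) :
    1 < ∑ i : Fin d, min ((num L a i.succ : ℝ) / num L a 0) 1 := by
  have hn : (0 : ℝ) < num L a 0 := by exact_mod_cast num_pos hL ha (hnd 0)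
  have hpos : ∀ i : Fin d, 0 < min ((num L a i.succ : ℝ) / num L a 0) 1 := by
    intro i
    have : (0 : ℝ) < num L a i.succ := by exact_mod_cast num_pos hL ha (hnd i.succ)
    exact lt_min (by positivity) one_pos
  by_cases hex : ∃ i : Fin d, num L a 0 ≤ num L a i.succ
  · obtain ⟨i, hi⟩ := hex
    obtain ⟨j, hj⟩ : ∃ j : Fin d, j ≠ i := by
      have : Nontrivial (Fin d) := Fin.nontrivial_iff_two_le.mpr hd
      exact exists_ne i
    have h1 : min ((num L a i.succ : ℝ) / num L a 0) 1 = 1 := by
      apply min_eq_right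
      rw [le_div_iff₀ hn, one_mul]
      exact_mod_cast hi
    have h2 : min ((num L a i.succ : ℝ) / num L a 0) 1 +
        min ((num L a j.succ : ℝ) / num L a 0) 1 ≤
        ∑ i : Fin d, min ((num L a i.succ : ℝ) / num L a 0) 1 := by
      rw [← Finset.sum_pair (f := fun i : Fin d => min ((num L a i.succ : ℝ) / num L a 0) 1)
        hj.symm]
      exact Finset.sum_le_sum_of_subset_of_nonneg (Finset.subset_univ _)
        fun k _ _ => (hpos k).le
    have h4 := hpos j
    linarith
  · push Not at hex
    have h1 : ∀ i : Fin d, min ((num L a i.succ : ℝ) / num L a 0) 1 =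
        (num L a i.succ : ℝ) / num L a 0 := by
      intro i
      apply min_eq_left
      rw [div_le_iff₀ hn, one_mul]
      exact_mod_cast (hex i).le
    rw [Finset.sum_congr rfl fun i _ => h1 i, ← Finset.sum_div, lt_div_iff₀ hn]
    have h2 := sum_num (L := L) a
    have h4 : 3 * (num L a 0 : ℝ) ≤ L := by exact_mod_cast h3
    linarith

/-- growth of the mean of the test function on all types implies transience -/
lemma transient_of_growth [NeZero L] (hd : 2 ≤ d) {a : ℕ → Fin (d + 1)}
    (ha : IsPeriodic a L) (hnd : Nondegenerate a) (h3 : 3 * num L a 0 ≤ L)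
    (δ ρ : ℝ) (hδ0 : 0 ≤ δ) (hδ1 : δ < 1) (hρ : 1 < ρ)
    (hgrow : ∀ m : ℕ, 1 ≤ m → ρ * ff δ m * L ≤ ∑ x ∈ range L, ∑ i, ff δ (NS a x i m)) :
    ∀ᵐ k ∂(shiftLaw d L), IsTransient (shiftConfig a k) := by
  have hL : 0 < L := Nat.pos_of_ne_zero (NeZero.ne L)
  have hLr : (0 : ℝ) < L := by exact_mod_cast hL
  have hz := hnd 0
  have hn : (0 : ℝ) < num L a 0 := by exact_mod_cast num_pos hL ha hz
  set σ : ℝ := ∑ i : Fin d, min ((num L a i.succ : ℝ) / num L a 0) 1 with hσdef
  have hσ : 1 < σ := sigma_gt_one hd hL ha hnd h3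
  obtain ⟨N, hN⟩ := exists_nat_ge ((2 * ((L : ℝ) + d)) / (σ - 1))
  have hN' : (L : ℝ) + d ≤ N * ((σ - 1) / 2) := by
    rw [div_le_iff₀ (by linarith)] at hN
    linarith
  set K : ℕ := L * N + 1 with hK
  have hK1 : 1 ≤ K := by omega
  obtain ⟨ε, hε, hsurv⟩ := survival (L := L) hz K (ff δ) (1 - δ) K (min ρ ((1 + σ) / 2))
    (by linarith) (lt_min hρ (by linarith)) (ff_zero δ)
    (by
      intro m hm _
      have h1 := ff_ge hδ0 m
      have h2 : (1 : ℝ) ≤ m := by exact_mod_cast hm
      linarith)
    (by
      intro m hm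
      have h1 := ff_le hδ0 m
      have h2 : (m : ℝ) ≤ K := by exact_mod_cast hm
      linarith)
    (by
      intro m hm hmK
      have hm' : (1 : ℝ) ≤ m := by exact_mod_cast hm
      have hff0 : 0 ≤ ff δ m := by
        have := ff_ge hδ0 m
        linarith
      have hconv : ∀ F : ℕ → ℝ, ∑ x : Fin L, F (x : ℕ) = ∑ x ∈ range L, F x := by
        intro F
        rw [Finset.sum_range]
      rw [hconv (fun x => ∑ i, ff δ (min (NS a x i m) K))]
      by_cases hmL : m * L ≤ K
      · -- no truncation
        have h1 : ∀ x ∈ range L, ∑ i, ff δ (min (NS a x i m) K) = ∑ i, ff δ (NS a x i m) := by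
          intro x _
          refine sum_congr rfl fun i _ => ?_
          rw [min_eq_left ((NS_le hL ha hz x i m).trans hmL)]
        rw [sum_congr rfl h1]
        refine le_trans ?_ (hgrow m hm)
        have : min ρ ((1 + σ) / 2) ≤ ρ := min_le_left _ _
        gcongr
      · -- large types
        push Not at hmL
        have hmN : N < m := by
          by_contra hcon
          push Not at hcon
          have : m * L ≤ N * L := Nat.mul_le_mul_right _ hcon
          rw [hK, mul_comm L N] at hmL
          omega
        have hmN' : (N : ℝ) ≤ m := by exact_mod_cast hmN.le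
        have h1 : ∀ x ∈ range L, (m : ℝ) * σ - L - d ≤ ∑ i, ff δ (min (NS a x i m) K) := by
          intro x _
          have h2 : ∀ i : Fin d, (m : ℝ) * min ((num L a i.succ : ℝ) / num L a 0) 1 -
              num L a i.succ - 1 ≤ ff δ (min (NS a x i m) K) := by
            intro i
            have hnr : (0 : ℝ) ≤ num L a i.succ := by positivity
            have h4 := ff_ge hδ0 (min (NS a x i m) K)
            -- lower bound for NS
            have hn0 : 0 < num L a 0 := num_pos hL ha hz
            have h5 : (m - 1) / num L a 0 * num L a 0 < m := by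
              have := Nat.div_mul_le_self (m - 1) (num L a 0)
              omega
            have h6 := NS_ge ha hz x i ((m - 1) / num L a 0) m h5
            have h7 : m ≤ ((m - 1) / num L a 0 + 1) * num L a 0 := by
              have := Nat.lt_div_mul_add (a := m - 1) hn0
              have h8 : ((m - 1) / num L a 0 + 1) * num L a 0 =
                (m - 1) / num L a 0 * num L a 0 + num L a 0 := by ring
              omega
            have h6' : (((m - 1) / num L a 0 : ℕ) : ℝ) * num L a i.succ ≤ NS a x i m := by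
              exact_mod_cast h6
            have h7' : (m : ℝ) ≤ ((((m - 1) / num L a 0 : ℕ) : ℝ) + 1) * num L a 0 := by
              exact_mod_cast h7
            have h8 : (m : ℝ) / num L a 0 - 1 ≤ (((m - 1) / num L a 0 : ℕ) : ℝ) := by
              rw [sub_le_iff_le_add, div_le_iff₀ hn]
              exact h7'
            have h9 : ((m : ℝ) / num L a 0 - 1) * num L a i.succ ≤ NS a x i m :=
              (mul_le_mul_of_nonneg_right h8 hnr).trans h6'
            have h10 : (m : ℝ) * min ((num L a i.succ : ℝ) / num L a 0) 1 -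
                num L a i.succ ≤ ((min (NS a x i m) K : ℕ) : ℝ) := by
              rw [Nat.cast_min]
              apply le_min
              · have h11 : (m : ℝ) * min ((num L a i.succ : ℝ) / num L a 0) 1 ≤
                    m * ((num L a i.succ : ℝ) / num L a 0) :=
                  mul_le_mul_of_nonneg_left (min_le_left _ _) (by positivity)
                have h12 : (m : ℝ) * ((num L a i.succ : ℝ) / num L a 0) - num L a i.succ =
                    ((m : ℝ) / num L a 0 - 1) * num L a i.succ := by
                  ring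
                linarith
              · have h11 : (m : ℝ) * min ((num L a i.succ : ℝ) / num L a 0) 1 ≤ m * 1 :=
                  mul_le_mul_of_nonneg_left (min_le_right _ _) (by positivity)
                have h12 : (m : ℝ) ≤ K := by exact_mod_cast hmK
                linarith
            linarith
          have h13 : ∑ i : Fin d, ((m : ℝ) * min ((num L a i.succ : ℝ) / num L a 0) 1 -
              num L a i.succ - 1) ≤ ∑ i, ff δ (min (NS a x i m) K) :=
            sum_le_sum fun i _ => h2 i
          rw [sum_sub_distrib, sum_sub_distrib, ← mul_sum, ← hσdef] at h13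
          have h14 := sum_num (L := L) a
          simp only [sum_const, card_univ, Fintype.card_fin, nsmul_eq_mul, mul_one] at h13
          linarith
        have h15 : (L : ℝ) * ((m : ℝ) * σ - L - d) ≤
            ∑ x ∈ range L, ∑ i, ff δ (min (NS a x i m) K) := by
          calc (L : ℝ) * ((m : ℝ) * σ - L - d) = ∑ _x ∈ range L, ((m : ℝ) * σ - L - d) := by
                rw [sum_const, card_range, nsmul_eq_mul]
            _ ≤ _ := sum_le_sum h1
        refine le_trans ?_ h15
        have h16 : ff δ m ≤ m := ff_le hδ0 m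
        have h17 : min ρ ((1 + σ) / 2) * ff δ m ≤ (1 + σ) / 2 * m := by
          have h18 : min ρ ((1 + σ) / 2) * ff δ m ≤ (1 + σ) / 2 * ff δ m :=
            mul_le_mul_of_nonneg_right (min_le_right _ _) hff0
          have h19 : (1 + σ) / 2 * ff δ m ≤ (1 + σ) / 2 * m :=
            mul_le_mul_of_nonneg_left h16 (by linarith)
          linarith
        have h20 : (1 + σ) / 2 * m ≤ (m : ℝ) * σ - L - d := by
          have h21 : (N : ℝ) * ((σ - 1) / 2) ≤ m * ((σ - 1) / 2) :=
            mul_le_mul_of_nonneg_right hmN' (by linarith)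
          nlinarith
        calc min ρ ((1 + σ) / 2) * ff δ m * L ≤ ((m : ℝ) * σ - L - d) * L :=
              mul_le_mul_of_nonneg_right (h17.trans h20) hLr.le
          _ = L * ((m : ℝ) * σ - L - d) := by ring)
  exact ae_transient_of_survival hd ha hnd ε hε fun n m hm => hsurv n m hm hK1

/-- transience if strictly less than a third of the rotors point to the parent -/
lemma transient_lt_third [NeZero L] (hd : 2 ≤ d) {a : ℕ → Fin (d + 1)}
    (ha : IsPeriodic a L) (hnd : Nondegenerate a) (h3 : 3 * num L a 0 < L) :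
    ∀ᵐ k ∂(shiftLaw d L), IsTransient (shiftConfig a k) := by
  have hL : 0 < L := Nat.pos_of_ne_zero (NeZero.ne L)
  have hLr : (0 : ℝ) < L := by exact_mod_cast hL
  have hz := hnd 0
  have hn : (0 : ℝ) < num L a 0 := by exact_mod_cast num_pos hL ha hz
  have h3' : 3 * (num L a 0 : ℝ) < L := by exact_mod_cast h3
  refine transient_of_growth hd ha hnd h3.le 0 (((L : ℝ) - num L a 0) / (2 * num L a 0)) le_rfl
    one_pos ?_ ?_
  · rw [lt_div_iff₀ (by positivity)]
    linarith
  · intro m hm
    obtain ⟨k, rfl⟩ : ∃ k, m = k + 1 := ⟨m - 1, by omega⟩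
    have h1 := sum_tot_ge hz hL ha k
    have h2 : ∑ x ∈ range L, ∑ i, ff 0 (NS a x i (k + 1)) = ∑ x ∈ range L, tot a (k + 1) x := by
      refine sum_congr rfl fun x _ => ?_
      unfold tot
      refine sum_congr rfl fun i _ => ?_
      simp [ff]
    rw [h2]
    refine le_trans ?_ h1
    have h4 : ff 0 (k + 1) = (k : ℝ) + 1 := by simp [ff]
    rw [h4]
    set G : ℝ := (L : ℝ) - num L a 0 with hG
    have hLG : (L : ℝ) = G + num L a 0 := by rw [hG]; ring
    have hG0 : 0 < G := by linarith
    have hk : (0 : ℝ) ≤ k := by positivity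
    rw [hLG]
    have h5 : G / (2 * num L a 0) * ((k : ℝ) + 1) * (G + num L a 0) =
        ((k : ℝ) + 1) * G ^ 2 / (2 * num L a 0) + ((k : ℝ) + 1) * G / 2 := by
      field_simp
    rw [h5]
    nlinarith [mul_nonneg hk hG0.le]

/-- equality case: all gaps equal two and no repeated letters means block form -/
lemma blockForm_of_eq [NeZero L] {a : ℕ → Fin (d + 1)}
    (ha : IsPeriodic a L) (hnd : Nondegenerate a) (h3 : 3 * num L a 0 = L)
    (hS : ∑ x ∈ range L, tot a 1 x ≤ L) (h1 : ∀ x < L, ∀ i, NS a x i 1 ≤ 1) : BlockForm a := by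
  have hL : 0 < L := Nat.pos_of_ne_zero (NeZero.ne L)
  have hz := hnd 0
  have hn : (0 : ℝ) < num L a 0 := by exact_mod_cast num_pos hL ha hz
  have h3' : 3 * (num L a 0 : ℝ) = L := by exact_mod_cast h3
  -- all gaps are equal to two
  have hgap : ∀ j, gap a j = 2 := by
    have h2 := sum_tot' hz ha 0
    simp only [zero_add] at h2
    rw [h2] at hS
    have h4 : ∀ j, gap a j * WW (gap a) (j + 1) 0 = 0 := by
      intro j
      simp [WW]
    rw [sum_congr rfl fun j _ => h4 j] at hS
    simp only [sum_const_zero, mul_zero, add_zero, Nat.cast_zero, zero_add] at hS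
    have h5 : ∑ j ∈ range (num L a 0), (gap a j - 2) ^ 2 ≤ 0 := by
      have h6 : ∀ j, (gap a j - 2) ^ 2 = gap a j ^ 2 - 4 * gap a j + 4 := by
        intro j
        ring
      rw [sum_congr rfl fun j _ => h6 j, sum_add_distrib, sum_sub_distrib, ← mul_sum,
        sum_gap hz ha]
      simp only [sum_const, card_range, nsmul_eq_mul]
      linarith
    have h7 : ∀ j ∈ range (num L a 0), gap a j = 2 := by
      intro j hj
      have h8 := (sum_eq_zero_iff_of_nonneg
        (fun j (_ : j ∈ range (num L a 0)) => sq_nonneg (gap a j - 2))).mp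
        (le_antisymm h5 (sum_nonneg fun j _ => sq_nonneg _)) j hj
      have h9 := pow_eq_zero_iff (two_ne_zero) |>.mp h8
      linarith
    intro j
    have h10 : gap a (j % num L a 0) = gap a j := by
      have h11 : ∀ q r, gap a (r + num L a 0 * q) = gap a r := by
        intro q
        induction q with
        | zero => simp
        | succ q ih =>
          intro r
          rw [Nat.mul_succ, ← add_assoc, gap_periodic hz ha, ih]
      have h12 := h11 (j / num L a 0) (j % num L a 0)
      rw [Nat.mod_add_div] at h12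
      exact h12.symm
    rw [← h10]
    apply h7
    rw [mem_range]
    exact Nat.mod_lt _ (by exact_mod_cast hn)
  have hzpos : ∀ j, zpos a (j + 1) = zpos a j + 3 := by
    intro j
    have h4 := hgap j
    unfold gap at h4
    have h5 : (zpos a (j + 1) : ℝ) = zpos a j + 3 := by linarith
    exact_mod_cast h5
  -- no letter is repeated
  have h1' : ∀ x i, NS a x i 1 ≤ 1 := by
    intro x i
    have h4 : NS a (x % L) i 1 = NS a x i 1 := by
      unfold NS
      have : (fun n => a (n + x % L)) = fun n => a (n + x) := by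
        funext n
        have h5 := periodic_mul ha (x / L) (n + x % L)
        rw [← h5]
        congr 1
        rw [add_assoc, Nat.mod_add_div' x L]
      rw [this]
    rw [← h4]
    exact h1 _ (Nat.mod_lt _ hL) i
  intro x hx
  obtain ⟨j, hj⟩ : ∃ j, zpos a j = x := ⟨_, zpos_cnt hx⟩
  have h4 : cnt a 0 (x + 3) = j + 1 := by
    have := cnt_zpos hz (j + 1)
    rwa [hzpos, hj] at this
  have h5 : cnt a 0 (x + 1) = j + 1 := by
    rw [cnt_succ_eq hx, ← hj, cnt_zpos hz]
  have hne : ∀ y, x + 1 ≤ y → y + 1 ≤ x + 3 → a y ≠ 0 := by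
    intro y hy1 hy2 h0
    have h6 : cnt a 0 (x + 1) ≤ cnt a 0 y := cnt_mono _ _ hy1
    have h7 : cnt a 0 (y + 1) ≤ cnt a 0 (x + 3) := cnt_mono _ _ hy2
    rw [cnt_succ_eq h0] at h7
    omega
  have hx1 : a (x + 1) ≠ 0 := hne _ le_rfl (by omega)
  have hx2 : a (x + 2) ≠ 0 := hne _ (by omega) (by omega)
  have hx3 : a (x + 3) = 0 := by
    have := zpos_mem hz (j + 1)
    rwa [hzpos, hj] at this
  refine ⟨hx1, hx2, ?_, hx3⟩
  intro heq
  obtain ⟨i, hi⟩ := Fin.eq_succ_of_ne_zero hx1
  have h6 := h1' (x + 1) i
  have h7 := tz_shift hz (x + 1) 0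
  rw [h5, add_zero, hzpos, hj] at h7
  have h8 : tz (fun n => a (n + (x + 1))) 1 = 3 := by
    simp only [zero_add] at h7
    omega
  unfold NS NN at h6
  rw [h8] at h6
  have h9 : cnt (fun n => a (n + (x + 1))) i.succ 1 = 1 := by
    have h12 := cnt_succ_eq (b := fun n => a (n + (x + 1))) (r := i.succ) (m := 0)
      (by simpa using hi)
    rw [cnt_zero] at h12
    exact h12
  have h10 : cnt (fun n => a (n + (x + 1))) i.succ 2 = 2 := by
    have : (fun n => a (n + (x + 1))) 1 = i.succ := by
      simp only
      rw [show 1 + (x + 1) = x + 2 by ring, ← heq, hi]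
    have h12 := cnt_succ_eq (b := fun n => a (n + (x + 1))) (r := i.succ) (m := 1) this
    rw [h9] at h12
    exact h12
  have h11 : cnt (fun n => a (n + (x + 1))) i.succ 2 ≤ cnt (fun n => a (n + (x + 1))) i.succ 3 :=
    cnt_mono _ _ (by omega)
  omega

/-- the case of exactly a third, not in block form -/
lemma transient_eq_third [NeZero L] (hd : 2 ≤ d) {a : ℕ → Fin (d + 1)}
    (ha : IsPeriodic a L) (hnd : Nondegenerate a) (h3 : 3 * num L a 0 = L)
    (hb : ¬ BlockForm a) :
    ∀ᵐ k ∂(shiftLaw d L), IsTransient (shiftConfig a k) := by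
  have hL : 0 < L := Nat.pos_of_ne_zero (NeZero.ne L)
  have hLr : (0 : ℝ) < L := by exact_mod_cast hL
  have hz := hnd 0
  have hn : (0 : ℝ) < num L a 0 := by exact_mod_cast num_pos hL ha hz
  have h3' : 3 * (num L a 0 : ℝ) = L := by exact_mod_cast h3
  have hdr : (2 : ℝ) ≤ d := by exact_mod_cast hd
  set δ : ℝ := 1 / (6 * d) with hδ
  have hδ0 : 0 < δ := by positivity
  have hδd : δ * d = 1 / 6 := by
    rw [hδ]
    field_simp
  have hδ1 : δ < 1 := by nlinarith
  -- lower bounds for the sums
  have hge : ∀ k : ℕ, (4 * (k : ℝ) + 3) * num L a 0 ≤ ∑ x ∈ range L, tot a (k + 1) x := by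
    intro k
    refine le_trans (le_of_eq ?_) (sum_tot_ge hz hL ha k)
    rw [← h3']
    field_simp
    ring
  -- the number of children of type one
  set C1 : ℝ := ∑ x ∈ range L, ∑ i : Fin d, (if NS a x i 1 = 1 then (1 : ℝ) else 0) with hC1
  have hfsum : ∀ m : ℕ, ∑ x ∈ range L, ∑ i, ff δ (NS a x i m) = ∑ x ∈ range L, tot a m x -
      δ * ∑ x ∈ range L, ∑ i : Fin d, (if NS a x i m = 1 then (1 : ℝ) else 0) := by
    intro m
    rw [mul_sum, ← sum_sub_distrib]
    refine sum_congr rfl fun x _ => ?_
    unfold tot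
    rw [mul_sum, ← sum_sub_distrib]
    refine sum_congr rfl fun i _ => ?_
    unfold ff
    split_ifs <;> ring
  have hC1le : C1 ≤ ∑ x ∈ range L, tot a 1 x := by
    rw [hC1]
    refine sum_le_sum fun x _ => ?_
    unfold tot
    refine sum_le_sum fun i _ => ?_
    split_ifs with h
    · rw [h]
      simp
    · positivity
  have hS1 : (L : ℝ) ≤ ∑ x ∈ range L, tot a 1 x := by
    have := hge 0
    simp only [Nat.cast_zero, mul_zero, zero_add] at this
    rwa [h3'] at this
  have hstrict : (1 - δ) * L < ∑ x ∈ range L, tot a 1 x - δ * C1 := by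
    by_cases hSL : ∑ x ∈ range L, tot a 1 x ≤ L
    · -- equality: there is a repeated letter
      have hex : ∃ x < L, ∃ i, 2 ≤ NS a x i 1 := by
        by_contra hcon
        push Not at hcon
        exact hb (blockForm_of_eq ha hnd h3 hSL fun x hx i => by
          have := hcon x hx i
          omega)
      obtain ⟨x, hx, i, hi⟩ := hex
      have h4 : C1 < ∑ x ∈ range L, tot a 1 x := by
        rw [hC1]
        have hle : ∀ y, ∀ j : Fin d, (if NS a y j 1 = 1 then (1 : ℝ) else 0) ≤ (NS a y j 1 : ℝ) := by
          intro y j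
          split_ifs with h
          · rw [h]
            simp
          · positivity
        refine sum_lt_sum (fun y _ => ?_) ⟨x, mem_range.mpr hx, ?_⟩
        · unfold tot
          exact sum_le_sum fun j _ => hle y j
        · unfold tot
          refine sum_lt_sum (fun j _ => hle x j) ⟨i, mem_univ i, ?_⟩
          rw [if_neg (by omega)]
          have : 0 < NS a x i 1 := by omega
          exact_mod_cast this
      nlinarith
    · push Not at hSL
      nlinarith
  -- the growth factor
  set Δ : ℝ := ∑ x ∈ range L, tot a 1 x - δ * C1 - (1 - δ) * L with hΔ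
  have hΔ0 : 0 < Δ := by
    rw [hΔ]
    linarith
  have h1δ : 0 < 1 - δ := by linarith
  refine transient_of_growth hd ha hnd h3.le δ (min (13 / 12) (1 + Δ / ((1 - δ) * L))) hδ0.le hδ1
    (lt_min (by norm_num) ?_) ?_
  · have : 0 < Δ / ((1 - δ) * L) := by positivity
    linarith
  · intro m hm
    rw [hfsum]
    rcases Nat.lt_or_ge 1 m with h2 | h2
    · -- m ≥ 2
      obtain ⟨k, rfl⟩ : ∃ k, m = k + 1 := ⟨m - 1, by omega⟩
      have hk : (1 : ℝ) ≤ k := by
        have : 1 ≤ k := by omega
        exact_mod_cast this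
      have h4 := hge k
      have h5 : ∑ x ∈ range L, ∑ i : Fin d, (if NS a x i (k + 1) = 1 then (1 : ℝ) else 0) ≤
          L * d := by
        calc ∑ x ∈ range L, ∑ i : Fin d, (if NS a x i (k + 1) = 1 then (1 : ℝ) else 0) ≤
            ∑ _x ∈ range L, ∑ _i : Fin d, (1 : ℝ) := by
              refine sum_le_sum fun x _ => sum_le_sum fun i _ => ?_
              split_ifs <;> norm_num
          _ = L * d := by simp
      have h6 := mul_le_mul_of_nonneg_left h5 hδ0.le
      have h7 : δ * ((L : ℝ) * d) = L / 6 := by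
        calc δ * ((L : ℝ) * d) = L * (δ * d) := by ring
          _ = L / 6 := by rw [hδd]; ring
      have h8 : ff δ (k + 1) = (k : ℝ) + 1 := by
        unfold ff
        rw [if_neg (by omega)]
        push_cast
        ring
      rw [h8]
      have h9 : min (13 / 12) (1 + Δ / ((1 - δ) * L)) * ((k : ℝ) + 1) * L ≤
          13 / 12 * ((k : ℝ) + 1) * L := by
        have : min (13 / 12) (1 + Δ / ((1 - δ) * L)) ≤ 13 / 12 := min_le_left _ _
        gcongr
      refine h9.trans ?_
      rw [← h3'] at h7 ⊢
      rw [← h3'] at h6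
      nlinarith
    · -- m = 1
      have hm1 : m = 1 := by omega
      subst hm1
      have h8 : ff δ 1 = 1 - δ := by
        unfold ff
        simp
      rw [h8, ← hC1]
      have h9 : min (13 / 12) (1 + Δ / ((1 - δ) * L)) * (1 - δ) * L ≤
          (1 + Δ / ((1 - δ) * L)) * (1 - δ) * L := by
        have : min (13 / 12) (1 + Δ / ((1 - δ) * L)) ≤ 1 + Δ / ((1 - δ) * L) := min_le_right _ _
        gcongr
      refine h9.trans (le_of_eq ?_)
      have h10 : (1 + Δ / ((1 - δ) * L)) * (1 - δ) * L = (1 - δ) * L + Δ := by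
        field_simp
      rw [h10, hΔ]
      ring

end Pool.Agent.RotorShift
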